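import Pool.Agent.Run7.h547.FM.AdicMap

/-!
# Functoriality of Fontaine's rings

An automorphism `φ` of a ring `R` induces automorphisms of the tilt, of `W(R♭)`, of
`W(R♭)[1/p]`, of `B_dR⁺` and of `B_dR`.
-/

set_option autoImplicit false

noncomputable section

open Ideal WittVector

namespace Run7.h547

variable {R : Type*} [CommRing R] {p : ℕ} [Fact p.Prime] [Fact ¬IsUnit (p : R)]

variable (R p) in
/-- Fontaine's ring `A_inf = W(R♭)`. -/
abbrev Ainf : Type _ := WittVector p (PreTilt R p)

omit [Fact p.Prime] [Fact ¬IsUnit (p : R)] in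
lemma span_le_comap (φ : R ≃+* R) (n : ℕ) :
    Ideal.span {(p : R)} ^ n ≤ (Ideal.span {(p : R)} ^ n).comap (φ : R →+* R) := by
  rw [Ideal.span_singleton_pow, Ideal.span_le, Set.singleton_subset_iff, SetLike.mem_coe,
    Ideal.mem_comap]
  simp

/-- the map induced on `R / p` -/
def modPMap (φ : R ≃+* R) : ModP R p →+* ModP R p :=
  Ideal.quotientMap _ (φ : R →+* R) (by simpa using span_le_comap (p := p) φ 1)

omit [Fact p.Prime] [Fact ¬IsUnit (p : R)] in
@[simp] lemma modPMap_mk (φ : R ≃+* R) (x : R) :
    modPMap (p := p) φ (Ideal.Quotient.mk _ x) = Ideal.Quotient.mk _ (φ x) := rfl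

/-- the map induced on the tilt -/
def tiltMap (φ : R ≃+* R) : PreTilt R p →+* PreTilt R p := Perfection.map p (modPMap φ)

lemma coeff_tiltMap (φ : R ≃+* R) (x : PreTilt R p) (n : ℕ) :
    PreTilt.coeff n (tiltMap φ x) = modPMap φ (PreTilt.coeff n x) := rfl

/-- the map induced on `A_inf` -/
def ainfMap (φ : R ≃+* R) : Ainf R p →+* Ainf R p := WittVector.map (tiltMap φ)

lemma ainfMap_teichmuller (φ : R ≃+* R) (x : PreTilt R p) :
    ainfMap φ (teichmuller p x) = teichmuller p (tiltMap φ x) :=
  WittVector.map_teichmuller ..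

variable [IsAdicComplete (span {(p : R)}) R]

lemma untilt_tiltMap (φ : R ≃+* R) (x : PreTilt R p) :
    (tiltMap φ x).untilt = φ x.untilt := by
  refine Perfection.teichmuller_spec fun n => ?_
  obtain ⟨y, hy⟩ := Ideal.Quotient.mk_surjective (PreTilt.coeff n x)
  refine ⟨φ y, ?_, ?_⟩
  · have := coeff_tiltMap φ x n
    rw [← hy, modPMap_mk] at this
    exact this.symm
  · have h : x.untilt ≡ y ^ p ^ n [SMOD span {(p : R)} ^ (n + 1)] :=
      Perfection.teichmuller_sModEq hy
    rw [SModEq.sub_mem] at h ⊢
    have h2 := span_le_comap (p := p) φ (n + 1) h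
    rw [Ideal.mem_comap] at h2
    rw [← Ideal.neg_mem_iff]
    simpa using h2

lemma theta_ainfMap (φ : R ≃+* R) (x : Ainf R p) :
    fontaineTheta R p (ainfMap φ x) = φ (fontaineTheta R p x) := by
  rw [IsHausdorff.eq_iff_smodEq (I := span {(p : R)})]
  intro n
  rw [smul_eq_mul, mul_top]
  cases n with
  | zero => simp
  | succ n =>
    have hnil : IsNilpotent ((p : ℕ) : R ⧸ (span {(p : R)}) ^ (n + 1)) := by
      refine ⟨n + 1, ?_⟩
      have : ((p : ℕ) : R ⧸ (span {(p : R)}) ^ (n + 1)) = Ideal.Quotient.mk _ (p : R) := by simp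
      rw [this, ← map_pow, Ideal.Quotient.eq_zero_iff_mem]
      exact Ideal.pow_mem_pow (mem_span_singleton_self _) _
    have key : ((Ideal.Quotient.mk (span {(p : R)} ^ (n + 1))).comp
        ((fontaineTheta R p).comp (ainfMap φ))) =
        ((Ideal.Quotient.mk (span {(p : R)} ^ (n + 1))).comp
          ((φ : R →+* R).comp (fontaineTheta R p))) := by
      refine eq_of_apply_teichmuller_eq _ _ hnil fun x => ?_
      simp only [RingHom.comp_apply, ainfMap_teichmuller, fontaineTheta_teichmuller,
        untilt_tiltMap, RingHom.coe_coe]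
    have := RingHom.congr_fun key x
    simpa [SModEq, RingHom.comp_apply] using this

variable (R p) in
/-- `A_inf[1/p]` -/
abbrev AinfP : Type _ := Localization.Away (p : Ainf R p)

/-- the map induced on `A_inf[1/p]` -/
def locMap (φ : R ≃+* R) : AinfP R p →+* AinfP R p :=
  Localization.awayLift ((algebraMap (Ainf R p) (AinfP R p)).comp (ainfMap φ)) (p : Ainf R p)
    (by simpa using IsLocalization.Away.algebraMap_isUnit (S := AinfP R p) (p : Ainf R p))

lemma locMap_algebraMap (φ : R ≃+* R) (x : Ainf R p) :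
    locMap φ (algebraMap (Ainf R p) (AinfP R p) x) =
      algebraMap (Ainf R p) (AinfP R p) (ainfMap φ x) :=
  IsLocalization.Away.lift_eq (p : Ainf R p)
    (by simpa using IsLocalization.Away.algebraMap_isUnit (S := AinfP R p) (p : Ainf R p)) x

/-- the map induced on `R[1/p]` -/
def rlocMap (φ : R ≃+* R) : Localization.Away (p : R) →+* Localization.Away (p : R) :=
  Localization.awayLift ((algebraMap R (Localization.Away (p : R))).comp (φ : R →+* R)) (p : R)
    (by simpa using IsLocalization.Away.algebraMap_isUnit (S := Localization.Away (p : R)) (p : R))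

lemma rlocMap_algebraMap (φ : R ≃+* R) (x : R) :
    rlocMap (p := p) φ (algebraMap _ _ x) = algebraMap _ _ (φ x) :=
  IsLocalization.Away.lift_eq (p : R)
    (by simpa using IsLocalization.Away.algebraMap_isUnit (S := Localization.Away (p : R)) (p : R))
    x

lemma thetaP_algebraMap (x : Ainf R p) :
    fontaineThetaInvertP R p (algebraMap (Ainf R p) (AinfP R p) x) =
      algebraMap _ _ (fontaineTheta R p x) :=
  IsLocalization.Away.lift_eq (p : Ainf R p)
    (by simpa using IsLocalization.Away.algebraMap_isUnit (S := Localization.Away (p : R)) (p : R))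
    x

lemma thetaP_locMap (φ : R ≃+* R) (x : AinfP R p) :
    fontaineThetaInvertP R p (locMap φ x) = rlocMap φ (fontaineThetaInvertP R p x) := by
  have : (fontaineThetaInvertP R p).comp (locMap φ) =
      (rlocMap φ).comp (fontaineThetaInvertP R p) := by
    refine IsLocalization.ringHom_ext (Submonoid.powers (p : Ainf R p)) ?_
    ext x : 1
    simp only [RingHom.comp_apply]
    rw [locMap_algebraMap, thetaP_algebraMap, thetaP_algebraMap, theta_ainfMap,
      rlocMap_algebraMap]
  exact RingHom.congr_fun this x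

variable (R p) in
/-- the kernel of `θ` on `A_inf[1/p]` -/
abbrev kerTheta : Ideal (AinfP R p) := RingHom.ker (fontaineThetaInvertP R p)

lemma kerTheta_le_comap (φ : R ≃+* R) : kerTheta R p ≤ (kerTheta R p).comap (locMap φ) := by
  intro x hx
  rw [RingHom.mem_ker] at hx
  rw [Ideal.mem_comap, RingHom.mem_ker, thetaP_locMap, hx, map_zero]

lemma tiltMap_comp (φ ψ : R ≃+* R) (x : PreTilt R p) :
    tiltMap (p := p) φ (tiltMap ψ x) = tiltMap (ψ.trans φ) x := by
  refine Perfection.ext fun n => ?_
  obtain ⟨y, hy⟩ := Ideal.Quotient.mk_surjective (PreTilt.coeff n x)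
  change PreTilt.coeff n _ = PreTilt.coeff n _
  rw [coeff_tiltMap, coeff_tiltMap, coeff_tiltMap, ← hy]
  rfl

lemma ainfMap_comp (φ ψ : R ≃+* R) (x : Ainf R p) :
    ainfMap (p := p) φ (ainfMap ψ x) = ainfMap (ψ.trans φ) x := by
  ext n
  simp only [ainfMap, WittVector.map_coeff, tiltMap_comp]

lemma tiltMap_refl (x : PreTilt R p) : tiltMap (p := p) (RingEquiv.refl R) x = x := by
  refine Perfection.ext fun n => ?_
  obtain ⟨y, hy⟩ := Ideal.Quotient.mk_surjective (PreTilt.coeff n x)
  change PreTilt.coeff n _ = PreTilt.coeff n _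
  rw [coeff_tiltMap, ← hy]
  rfl

lemma ainfMap_refl (x : Ainf R p) : ainfMap (p := p) (RingEquiv.refl R) x = x := by
  ext n
  simp only [ainfMap, WittVector.map_coeff, tiltMap_refl]

lemma locMap_comp (φ ψ : R ≃+* R) (x : AinfP R p) :
    locMap φ (locMap ψ x) = locMap (ψ.trans φ) x := by
  have : (locMap φ).comp (locMap ψ) = locMap (p := p) (ψ.trans φ) := by
    refine IsLocalization.ringHom_ext (Submonoid.powers (p : Ainf R p)) ?_
    ext x : 1
    simp only [RingHom.comp_apply, locMap_algebraMap, ainfMap_comp]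
  exact RingHom.congr_fun this x

lemma locMap_refl (x : AinfP R p) : locMap (RingEquiv.refl R) x = x := by
  have : locMap (RingEquiv.refl R) = RingHom.id (AinfP R p) := by
    refine IsLocalization.ringHom_ext (Submonoid.powers (p : Ainf R p)) ?_
    ext x : 1
    simp only [RingHom.comp_apply, locMap_algebraMap, ainfMap_refl, RingHom.id_apply]
  exact RingHom.congr_fun this x

lemma locMap_symm (φ : R ≃+* R) (x : AinfP R p) : locMap φ (locMap φ.symm x) = x := by
  rw [locMap_comp, RingEquiv.symm_trans_self, locMap_refl]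

lemma locMap_symm' (φ : R ≃+* R) (x : AinfP R p) : locMap φ.symm (locMap φ x) = x := by
  rw [locMap_comp, RingEquiv.self_trans_symm, locMap_refl]

/-- the automorphism induced on `A_inf[1/p]` -/
def locEquiv (φ : R ≃+* R) : AinfP R p ≃+* AinfP R p :=
  RingEquiv.ofRingHom (locMap φ) (locMap φ.symm)
    (RingHom.ext (locMap_symm φ)) (RingHom.ext (locMap_symm' φ))

lemma locEquiv_apply (φ : R ≃+* R) (x : AinfP R p) : locEquiv φ x = locMap φ x := rfl

/-- `B_dR` is a localization of `B_dR⁺`, hence a commutative ring -/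
instance instCommRingBdR : CommRing (BDeRham R p) :=
  inferInstanceAs <| CommRing <| Localization (M := BDeRhamPlus R p) <| Submonoid.closure <|
    AdicCompletion.of ((RingHom.ker (fontaineThetaInvertP R p))) _ ''
      {a | (RingHom.ker (fontaineThetaInvertP R p)) = Ideal.span {a}}

/-- the map induced on `B_dR`; it is the map of the localization of the completion of
`A_inf[1/p]` along `ker θ` which is induced by the automorphism of `A_inf[1/p]` -/
def bdRMap (φ : R ≃+* R) : BDeRham R p →+* BDeRham R p :=
  locAdicMap (kerTheta R p) (locEquiv φ) (kerTheta_le_comap φ) (kerTheta_le_comap φ.symm)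

variable (R p) in
/-- the map `A_inf → B_dR` -/
def ainfToBdR : Ainf R p →+* BDeRham R p :=
  ((algebraMap (AdicCompletion (kerTheta R p) (AinfP R p))
      (Localization (gens (kerTheta R p)))).comp
    (algebraMap (AinfP R p) (AdicCompletion (kerTheta R p) (AinfP R p)))).comp
    (algebraMap (Ainf R p) (AinfP R p))

lemma bdRMap_ainf (φ : R ≃+* R) (x : Ainf R p) :
    bdRMap φ (ainfToBdR R p x) = ainfToBdR R p (ainfMap φ x) := by
  refine (locAdicMap_algebraMap (kerTheta R p) (locEquiv φ) (kerTheta_le_comap φ)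
    (kerTheta_le_comap φ.symm) _).trans ?_
  refine congrArg (algebraMap (AdicCompletion (kerTheta R p) (AinfP R p))
      (Localization (gens (kerTheta R p)))) ?_
  refine (adicMap_of (kerTheta R p) _ (kerTheta_le_comap φ) _).trans ?_
  exact congrArg (AdicCompletion.of (kerTheta R p) (AinfP R p)) (locMap_algebraMap φ x)

end Run7.h547
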