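import Pool.Agent.Run7.h547.FM.AdicMap

/-!
# Adic completions along a principal ideal, with a group action

Let `A` be a domain and let `I = (ω)` be a principal ideal. We consider the `I`-adic
completion of `A` and its localization at the generators of `I`. The results are the abstract part
of the study of elements of Fontaine's field `B_dR` on which a group acts by a character.
-/

set_option autoImplicit false

noncomputable section

open Ideal

namespace Run7.h547

section Lead

variable {A : Type*} [CommRing A] [IsDomain A] (I : Ideal A) (ω : A) (hω : I = span {ω})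
  (hω0 : ω ≠ 0)

include hω hω0

lemma mem_pow_iff (n : ℕ) (x : A) : x ∈ I ^ n ↔ ∃ y, x = ω ^ n * y := by
  rw [hω, Ideal.span_singleton_pow, Ideal.mem_span_singleton]
  rfl

lemma gens_form {m : AdicCompletion I A} (hm : m ∈ gens I) :
    ∃ (k : ℕ) (ε : Aˣ), m = AdicCompletion.of I A (ε * ω ^ k) := by
  induction hm using Submonoid.closure_induction with
  | mem x hx =>
    obtain ⟨a, ha, rfl⟩ := hx
    have h1 : Associated ω a := by
      rw [← Ideal.span_singleton_eq_span_singleton, ← hω]; exact ha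
    obtain ⟨u, hu⟩ := h1
    exact ⟨1, u, by rw [← hu, pow_one, mul_comm]⟩
  | one => exact ⟨0, 1, by simp; rfl⟩
  | mul x y hx hy ihx ihy =>
    obtain ⟨k, ε, rfl⟩ := ihx
    obtain ⟨k', ε', rfl⟩ := ihy
    refine ⟨k + k', ε * ε', ?_⟩
    rw [Units.val_mul, pow_add]
    have := map_mul (algebraMap A (AdicCompletion I A)) (ε * ω ^ k) (ε' * ω ^ k')
    rw [show (ε : A) * ε' * (ω ^ k * ω ^ k') = ε * ω ^ k * (ε' * ω ^ k') by ring]
    exact this.symm

/-- multiplication by `ω` is injective on the completion -/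
lemma omega_mul_injective (x : AdicCompletion I A)
    (hx : algebraMap A (AdicCompletion I A) ω * x = 0) : x = 0 := by
  refine AdicCompletion.ext_evalₐ fun n => ?_
  rw [map_zero, ← factorPow_eval I (n.le_add_right 1) x]
  obtain ⟨y, hy⟩ := Ideal.Quotient.mk_surjective (AdicCompletion.evalₐ I (n + 1) x)
  have h1 : AdicCompletion.evalₐ I (n + 1) (algebraMap A (AdicCompletion I A) ω * x) = 0 := by
    rw [hx, map_zero]
  rw [map_mul, ← hy] at h1
  have h2 : AdicCompletion.evalₐ I (n + 1) (algebraMap A (AdicCompletion I A) ω) =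
    Ideal.Quotient.mk _ ω := AdicCompletion.evalₐ_of I (n + 1) ω
  rw [h2, ← map_mul, Ideal.Quotient.eq_zero_iff_mem, mem_pow_iff I ω hω hω0] at h1
  obtain ⟨z, hz⟩ := h1
  have h3 : y = ω ^ n * z := by
    apply mul_left_cancel₀ hω0
    rw [hz, pow_succ]; ring
  rw [← hy]
  change Ideal.Quotient.mk (I ^ n) y = 0
  rw [Ideal.Quotient.eq_zero_iff_mem, mem_pow_iff I ω hω hω0]
  exact ⟨z, h3⟩

lemma gens_le_nonZeroDivisors : gens I ≤ nonZeroDivisors (AdicCompletion I A) := by
  intro m hm
  obtain ⟨k, ε, rfl⟩ := gens_form I ω hω hω0 hm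
  change algebraMap A (AdicCompletion I A) (ε * ω ^ k) ∈ _
  rw [map_mul, map_pow]
  refine mul_mem ?_ (pow_mem ?_ k)
  · exact (ε.isUnit.map (algebraMap A (AdicCompletion I A))).mem_nonZeroDivisors
  · rw [mem_nonZeroDivisors_iff_right]
    intro x hx
    exact omega_mul_injective I ω hω hω0 x (by rw [mul_comm]; exact hx)

lemma algebraMap_injective :
    Function.Injective (algebraMap (AdicCompletion I A) (Localization (gens I))) :=
  IsLocalization.injective _ (gens_le_nonZeroDivisors I ω hω hω0)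

/-- Elements of the completion, up to a power of `ω`. -/
lemma exists_integral (b : Localization (gens I)) : ∃ (k : ℕ) (a : AdicCompletion I A),
    b * algebraMap _ _ (algebraMap A (AdicCompletion I A) (ω ^ k)) = algebraMap _ _ a := by
  obtain ⟨⟨x, m⟩, h⟩ := IsLocalization.surj (gens I) b
  obtain ⟨k, ε, hk⟩ := gens_form I ω hω hω0 m.2
  refine ⟨k, x * algebraMap A (AdicCompletion I A) (ε⁻¹ : Aˣ), ?_⟩
  rw [map_mul, ← h, mul_assoc, ← map_mul]
  congr 2
  have h1 : (ω : A) ^ k = (ε * ω ^ k) * ((ε⁻¹ : Aˣ) : A) := by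
    rw [mul_right_comm, Units.mul_inv, one_mul]
  have h2 := congrArg (algebraMap A (AdicCompletion I A)) h1
  rw [map_mul] at h2
  rw [h2]
  change algebraMap A (AdicCompletion I A) _ * _ = (m : AdicCompletion I A) * _
  rw [hk]
  rfl

/-- The leading term of an element of the localized completion on which `g` acts through `l`. -/
theorem leading_term {Γ : Type*} (g : Γ → (A ≃+* A)) (hg : ∀ γ, I ≤ I.comap (g γ : A →+* A))
    (hg' : ∀ γ, I ≤ I.comap ((g γ).symm : A →+* A)) (l c : Γ → A) (hc : ∀ γ, g γ ω = c γ * ω)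
    (b : Localization (gens I)) (hb : b ≠ 0)
    (hbg : ∀ γ, locAdicMap I (g γ) (hg γ) (hg' γ) b =
      algebraMap _ _ (algebraMap A (AdicCompletion I A) (l γ)) * b) :
    ∃ (m k : ℕ) (u : A), u ∉ I ∧ ∀ γ, c γ ^ m * g γ u - l γ * c γ ^ k * u ∈ I := by
  obtain ⟨k, a, ha⟩ := exists_integral I ω hω hω0 b
  have hωu : IsUnit (algebraMap (AdicCompletion I A) (Localization (gens I))
      (algebraMap A (AdicCompletion I A) (ω ^ k))) := by
    rw [map_pow, map_pow]
    refine IsUnit.pow k ?_
    exact IsLocalization.map_units (Localization (gens I))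
      (⟨AdicCompletion.of I A ω, Submonoid.subset_closure ⟨ω, hω, rfl⟩⟩ : gens I)
  have ha0 : a ≠ 0 := by
    rintro rfl
    rw [map_zero] at ha
    exact hb ((IsUnit.mul_left_eq_zero hωu).1 ha)
  have hag : ∀ γ, adicMap I (g γ : A →+* A) (hg γ) a =
      algebraMap A (AdicCompletion I A) (l γ * c γ ^ k) * a := by
    intro γ
    apply algebraMap_injective I ω hω hω0
    rw [← locAdicMap_algebraMap I (g γ) (hg γ) (hg' γ), ← ha, map_mul, hbg,
      locAdicMap_algebraMap]
    have h1 : adicMap I (g γ : A →+* A) (hg γ) (algebraMap A (AdicCompletion I A) (ω ^ k)) =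
        algebraMap A (AdicCompletion I A) (c γ ^ k * ω ^ k) := by
      refine (adicMap_of I _ (hg γ) (ω ^ k)).trans ?_
      rw [← mul_pow, ← hc, ← map_pow]
      rfl
    rw [h1]
    simp only [map_mul, ← ha]
    ring
  -- the leading term
  have hex : ∃ n, AdicCompletion.evalₐ I n a ≠ 0 := by
    by_contra hcon
    push Not at hcon
    exact ha0 (AdicCompletion.ext_evalₐ fun n => by rw [hcon n, map_zero])
  classical
  obtain ⟨n, hn, hmin⟩ : ∃ n, AdicCompletion.evalₐ I n a ≠ 0 ∧
      ∀ m < n, AdicCompletion.evalₐ I m a = 0 :=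
    ⟨Nat.find hex, Nat.find_spec hex, fun m hm => not_not.1 (Nat.find_min hex hm)⟩
  have hn0 : n ≠ 0 := by
    rintro rfl
    apply hn
    have : Subsingleton (A ⧸ I ^ 0) := by
      rw [pow_zero, Ideal.one_eq_top]
      exact Ideal.Quotient.subsingleton_iff.2 rfl
    exact Subsingleton.elim _ _
  obtain ⟨m, rfl⟩ := Nat.exists_eq_succ_of_ne_zero hn0
  obtain ⟨s, hs⟩ := Ideal.Quotient.mk_surjective (AdicCompletion.evalₐ I (m + 1) a)
  have hs1 : s ∈ I ^ m := by
    rw [← Ideal.Quotient.eq_zero_iff_mem]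
    have := factorPow_eval I (m.le_add_right 1) a
    rw [hmin m (Nat.lt_succ_self m), ← hs] at this
    exact this
  rw [mem_pow_iff I ω hω hω0] at hs1
  obtain ⟨u, rfl⟩ := hs1
  refine ⟨m, k, u, fun hu => hn ?_, fun γ => ?_⟩
  · rw [Nat.succ_eq_add_one, ← hs, Ideal.Quotient.eq_zero_iff_mem, pow_succ]
    refine Ideal.mul_mem_mul ?_ hu
    rw [mem_pow_iff I ω hω hω0]
    exact ⟨1, by rw [mul_one]⟩
  · have h1 := congrArg (AdicCompletion.evalₐ I (m + 1)) (hag γ)
    rw [eval_adicMap, map_mul, ← hs] at h1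
    have h2 : AdicCompletion.evalₐ I (m + 1) (algebraMap A (AdicCompletion I A)
        (l γ * c γ ^ k)) = Ideal.Quotient.mk _ (l γ * c γ ^ k) :=
      AdicCompletion.evalₐ_of I (m + 1) _
    rw [h2, Ideal.quotientMap_mk, ← map_mul, Ideal.Quotient.eq, mem_pow_iff I ω hω hω0] at h1
    obtain ⟨y, hy⟩ := h1
    rw [hω, Ideal.mem_span_singleton]
    refine ⟨y, mul_left_cancel₀ (pow_ne_zero m hω0) ?_⟩
    have h3 : (g γ : A →+* A) (ω ^ m * u) = c γ ^ m * ω ^ m * g γ u := by
      rw [map_mul, map_pow]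
      change (g γ ω) ^ m * g γ u = _
      rw [hc, mul_pow]
    rw [h3] at hy
    rw [mul_sub, ← mul_assoc (ω ^ m) ω y, ← pow_succ, ← hy]
    ring

end Lead

end Run7.h547
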