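import Mathlib

/-!
# Functoriality of adic completions

Let `I` be an ideal of `A`. We consider the `I`-adic completion of `A`, its localization at the
generators of `I`, and the maps between these rings which are induced by automorphisms of `A`
which preserve `I`.
-/

set_option autoImplicit false

noncomputable section

open Ideal

namespace Run7.h547

variable {A : Type*} [CommRing A] (I : Ideal A)

lemma pow_le_comap {f : A →+* A} (hf : I ≤ I.comap f) (n : ℕ) : I ^ n ≤ (I ^ n).comap f :=
  (Ideal.pow_right_mono hf n).trans (Ideal.le_comap_pow _ _)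

lemma factorPow_eval {m n : ℕ} (hmn : m ≤ n) (x : AdicCompletion I A) :
    Ideal.Quotient.factorPow I hmn (AdicCompletion.evalₐ I n x) = AdicCompletion.evalₐ I m x := by
  induction x using AdicCompletion.induction_on with
  | h f =>
    rw [AdicCompletion.evalₐ_mk, AdicCompletion.evalₐ_mk]
    exact AdicCompletion.Ideal.mk_eq_mk I hmn f

lemma adicMap_compat (f : A →+* A) (hf : I ≤ I.comap f) {m n : ℕ} (hmn : m ≤ n) :
    (Ideal.Quotient.factorPow I hmn).comp
      ((Ideal.quotientMap (I ^ n) f (pow_le_comap I hf n)).comp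
        (AdicCompletion.evalₐ I n : AdicCompletion I A →+* A ⧸ I ^ n)) =
      (Ideal.quotientMap (I ^ m) f (pow_le_comap I hf m)).comp
        (AdicCompletion.evalₐ I m : AdicCompletion I A →+* A ⧸ I ^ m) := by
  ext x
  simp only [RingHom.comp_apply, RingHom.coe_coe]
  rw [← factorPow_eval I hmn x]
  obtain ⟨y, hy⟩ := Ideal.Quotient.mk_surjective (AdicCompletion.evalₐ I n x)
  rw [← hy]
  rfl

/-- The map induced on the `I`-adic completion by an endomorphism which preserves `I`. -/
def adicMap (f : A →+* A) (hf : I ≤ I.comap f) : AdicCompletion I A →+* AdicCompletion I A :=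
  AdicCompletion.liftRingHom I
    (fun n => (Ideal.quotientMap (I ^ n) f (pow_le_comap I hf n)).comp
      (AdicCompletion.evalₐ I n : AdicCompletion I A →+* A ⧸ I ^ n)) (adicMap_compat I f hf)

lemma eval_adicMap (f : A →+* A) (hf : I ≤ I.comap f) (n : ℕ) (x : AdicCompletion I A) :
    AdicCompletion.evalₐ I n (adicMap I f hf x) =
      Ideal.quotientMap (I ^ n) f (pow_le_comap I hf n) (AdicCompletion.evalₐ I n x) :=
  AdicCompletion.evalₐ_liftRingHom I _ (adicMap_compat I f hf) n x

lemma adicMap_of (f : A →+* A) (hf : I ≤ I.comap f) (x : A) :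
    adicMap I f hf (AdicCompletion.of I A x) = AdicCompletion.of I A (f x) := by
  refine AdicCompletion.ext_evalₐ fun n => ?_
  rw [eval_adicMap, AdicCompletion.evalₐ_of, AdicCompletion.evalₐ_of]
  rfl

/-- The submonoid of the completion generated by the generators of `I`. -/
abbrev gens : Submonoid (AdicCompletion I A) :=
  Submonoid.closure (AdicCompletion.of I A '' {a | I = Ideal.span {a}})

lemma map_gen (f : A ≃+* A) (hf : I ≤ I.comap (f : A →+* A)) (hf' : I ≤ I.comap (f.symm : A →+* A))
    {a : A} (ha : I = Ideal.span {a}) : I = Ideal.span {f a} := by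
  refine le_antisymm (fun x hx => ?_) ?_
  · have h1 : f.symm x ∈ I := hf' hx
    rw [ha, Ideal.mem_span_singleton] at h1
    obtain ⟨c, hc⟩ := h1
    rw [Ideal.mem_span_singleton]
    refine ⟨f c, ?_⟩
    rw [← map_mul, ← hc, RingEquiv.apply_symm_apply]
  · rw [Ideal.span_le, Set.singleton_subset_iff]
    have : a ∈ I := by rw [ha]; exact Ideal.mem_span_singleton_self a
    exact hf this

lemma gens_le_comap (f : A ≃+* A) (hf : I ≤ I.comap (f : A →+* A))
    (hf' : I ≤ I.comap (f.symm : A →+* A)) :
    gens I ≤ (gens I).comap (adicMap I (f : A →+* A) hf) := by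
  rw [gens, Submonoid.closure_le]
  rintro _ ⟨a, ha, rfl⟩
  rw [SetLike.mem_coe, Submonoid.mem_comap, adicMap_of]
  exact Submonoid.subset_closure ⟨_, map_gen I f hf hf' ha, rfl⟩

/-- The map induced on the localization of the completion. -/
def locAdicMap (f : A ≃+* A) (hf : I ≤ I.comap (f : A →+* A))
    (hf' : I ≤ I.comap (f.symm : A →+* A)) : Localization (gens I) →+* Localization (gens I) :=
  IsLocalization.map (Localization (gens I)) (adicMap I (f : A →+* A) hf)
    (gens_le_comap I f hf hf')

lemma locAdicMap_algebraMap (f : A ≃+* A) (hf : I ≤ I.comap (f : A →+* A))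
    (hf' : I ≤ I.comap (f.symm : A →+* A)) (x : AdicCompletion I A) :
    locAdicMap I f hf hf' (algebraMap _ _ x) = algebraMap _ _ (adicMap I (f : A →+* A) hf x) :=
  IsLocalization.map_eq ..

end Run7.h547
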