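import Mathlib

/-!
# The norm of `ζ - 1` for a root of unity `ζ` of `p`-power order
-/

set_option autoImplicit false

open Polynomial

namespace Run7.h547

variable {K : Type*} [NormedField K] [IsUltrametricDist K] {p : ℕ} [Fact p.Prime]

omit [IsUltrametricDist K] in
lemma norm_root {ζ : K} {n : ℕ} (hn : n ≠ 0) (h : ζ ^ n = 1) : ‖ζ‖ = 1 := by
  have := congrArg norm h
  rw [norm_pow, norm_one] at this
  exact (pow_eq_one_iff_of_nonneg (norm_nonneg _) hn).1 this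

lemma norm_pow_sub_one_le {ζ : K} {n : ℕ} (hn : n ≠ 0) (h : ζ ^ n = 1) (a : ℕ) :
    ‖ζ ^ a - 1‖ ≤ ‖ζ - 1‖ := by
  have h1 := norm_root hn h
  rw [← mul_geom_sum, norm_mul]
  refine mul_le_of_le_one_right (norm_nonneg _) ?_
  refine IsUltrametricDist.norm_sum_le_of_forall_le_of_nonneg zero_le_one fun i _ => ?_
  rw [norm_pow, h1, one_pow]

lemma norm_sub_one_eq {ζ μ : K} {n : ℕ} [NeZero n] (h : IsPrimitiveRoot ζ n)
    (h' : IsPrimitiveRoot μ n) : ‖μ - 1‖ = ‖ζ - 1‖ := by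
  have hn : n ≠ 0 := NeZero.ne n
  obtain ⟨a, _, ha⟩ := h.eq_pow_of_pow_eq_one h'.pow_eq_one
  obtain ⟨b, _, hb⟩ := h'.eq_pow_of_pow_eq_one h.pow_eq_one
  refine le_antisymm ?_ ?_
  · rw [← ha]; exact norm_pow_sub_one_le hn h.pow_eq_one a
  · rw [← hb]; exact norm_pow_sub_one_le hn h'.pow_eq_one b

theorem norm_zeta_sub_one (hp : ‖(p : K)‖ = (p : ℝ)⁻¹) {k : ℕ} {ζ : K}
    (h : IsPrimitiveRoot ζ (p ^ (k + 1))) : ‖ζ - 1‖ ^ (p ^ k * (p - 1)) = (p : ℝ)⁻¹ := by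
  have hne : NeZero (p ^ (k + 1)) := ⟨pow_ne_zero _ (Fact.out : p.Prime).ne_zero⟩
  have h1 := eval_one_cyclotomic_prime_pow (R := K) (p := p) k
  rw [cyclotomic_eq_prod_X_sub_primitiveRoots h, eval_prod] at h1
  have h2 := congrArg norm h1
  rw [norm_prod, hp] at h2
  rw [← h2, ← Nat.totient_prime_pow_succ (Fact.out : p.Prime), ← h.card_primitiveRoots]
  symm
  apply Finset.prod_eq_pow_card
  intro μ hμ
  rw [mem_primitiveRoots (Nat.pos_of_ne_zero hne.out)] at hμ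
  rw [eval_sub, eval_X, eval_C, norm_sub_rev]
  exact norm_sub_one_eq h hμ

end Run7.h547
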