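import Pool.Agent.Run7.h547.FM.OC
import Pool.Agent.Run7.h547.FM.Act
import Pool.Agent.Run7.h547.FM.Zeta

/-!
# The kernel of Fontaine's map `θ : W(𝓞♭) → 𝓞` for the ring of integers `𝓞` of `ℂ_p`
-/

set_option autoImplicit false

noncomputable section

open Ideal WittVector

namespace Run7.h547

variable {p : ℕ} [Fact p.Prime]

instance instDomTilt : IsDomain (PreTilt 𝓞_ℂ_[p] p) :=
  PreTilt.isDomain ℂ_[p] (PadicComplex.valued p).v _ (PadicComplexInt.integers p) p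

variable (p) in
/-- the ideal `(p)` of the ring of integers of `ℂ_p` -/
abbrev Ip : Ideal 𝓞_ℂ_[p] := span {((p : ℕ) : 𝓞_ℂ_[p])}

/-- compatible systems of `p`-power roots, and the tilt -/
def tiltEquiv : Perfection 𝓞_ℂ_[p] p ≃* PreTilt 𝓞_ℂ_[p] p :=
  Perfection.quotientMulEquiv p (Ip p)

lemma untilt_tiltEquiv (x : Perfection 𝓞_ℂ_[p] p) :
    (tiltEquiv x).untilt = Perfection.coeffMonoidHom _ p 0 x :=
  Perfection.teichmuller₀_mapMonoidHom_idealQuotientMk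

lemma coeff_tiltEquiv (x : Perfection 𝓞_ℂ_[p] p) (n : ℕ) :
    PreTilt.coeff n (tiltEquiv x) =
      Ideal.Quotient.mk (Ip p) (Perfection.coeffMonoidHom _ p n x) := rfl

/-- the `n`-th component of the compatible system attached to an element of the tilt -/
def comp (x : PreTilt 𝓞_ℂ_[p] p) (n : ℕ) : 𝓞_ℂ_[p] :=
  Perfection.coeffMonoidHom _ p n (tiltEquiv.symm x)

lemma comp_mul (x y : PreTilt 𝓞_ℂ_[p] p) (n : ℕ) : comp (x * y) n = comp x n * comp y n := by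
  simp only [comp, map_mul]

lemma comp_zero_eq (x : PreTilt 𝓞_ℂ_[p] p) : comp x 0 = x.untilt := by
  obtain ⟨y, rfl⟩ := tiltEquiv.surjective x
  rw [comp, MulEquiv.symm_apply_apply, untilt_tiltEquiv]

lemma comp_succ (x : PreTilt 𝓞_ℂ_[p] p) (n : ℕ) : comp x (n + 1) ^ p = comp x n :=
  (tiltEquiv.symm x).2 n

lemma comp_pow (x : PreTilt 𝓞_ℂ_[p] p) (n : ℕ) : comp x n ^ p ^ n = x.untilt := by
  induction n with
  | zero => rw [pow_zero, pow_one, comp_zero_eq]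
  | succ n ih => rw [pow_succ', pow_mul, comp_succ, ih]

lemma mk_comp (x : PreTilt 𝓞_ℂ_[p] p) (n : ℕ) :
    Ideal.Quotient.mk (Ip p) (comp x n) = PreTilt.coeff n x := by
  obtain ⟨y, rfl⟩ := tiltEquiv.surjective x
  rw [comp, MulEquiv.symm_apply_apply, coeff_tiltEquiv]

lemma norm_comp_pow (x : PreTilt 𝓞_ℂ_[p] p) (n : ℕ) :
    ‖(comp x n : ℂ_[p])‖ ^ p ^ n = ‖(x.untilt : ℂ_[p])‖ := by
  rw [← comp_pow x n, ← norm_pow]
  congr 1

/-- divisibility in the tilt -/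
lemma tilt_dvd (x y : PreTilt 𝓞_ℂ_[p] p) (hy : (y.untilt : ℂ_[p]) ≠ 0)
    (h : ‖(x.untilt : ℂ_[p])‖ ≤ ‖(y.untilt : ℂ_[p])‖) : y ∣ x := by
  have hpp : ∀ n, p ^ n ≠ 0 := fun n => pow_ne_zero _ (Fact.out : p.Prime).ne_zero
  have hyn : ∀ n, (comp y n : ℂ_[p]) ≠ 0 := by
    intro n h0
    have := norm_comp_pow y n
    rw [h0, norm_zero, zero_pow (hpp n)] at this
    exact hy (norm_eq_zero.1 this.symm)
  have hn : ∀ n, ‖(comp x n : ℂ_[p])‖ ≤ ‖(comp y n : ℂ_[p])‖ := by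
    intro n
    refine le_of_pow_le_pow_left₀ (hpp n) (norm_nonneg _) ?_
    rw [norm_comp_pow, norm_comp_pow]
    exact h
  choose z hz using fun n => (dvd_iff (comp x n) (comp y n) (hyn n)).2 (hn n)
  have hzp : ∀ n, z (n + 1) ^ p = z n := by
    intro n
    have hyn' : comp y n ≠ 0 := fun h0 => hyn n (by rw [h0]; rfl)
    apply mul_left_cancel₀ hyn'
    rw [← hz n, ← comp_succ x n, ← comp_succ y n, ← mul_pow, ← hz (n + 1)]
  refine ⟨tiltEquiv ⟨z, hzp⟩, ?_⟩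
  apply tiltEquiv.symm.injective
  apply Subtype.ext
  funext n
  change comp x n = comp (y * tiltEquiv ⟨z, hzp⟩) n
  rw [comp_mul, hz n]
  congr 1
  rw [comp, MulEquiv.symm_apply_apply]
  rfl

/-! ### Roots of unity -/

variable (p) in
lemma exists_zeta : ∃ ζ : ℕ → PadicAlgCl p, (∀ n, ζ (n + 1) ^ p = ζ n) ∧
    ∀ n, IsPrimitiveRoot (ζ n) (p ^ n) := by
  have hp0 : p ≠ 0 := (Fact.out : p.Prime).ne_zero
  have hpos : 0 < p := Nat.pos_of_ne_zero hp0
  have hne : NeZero ((p : ℕ) : PadicAlgCl p) := ⟨by exact_mod_cast hp0⟩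
  obtain ⟨ζ₁, h₁⟩ : ∃ ζ : PadicAlgCl p, IsPrimitiveRoot ζ p :=
    HasEnoughRootsOfUnity.exists_primitiveRoot (PadicAlgCl p) p
  have hroot : ∀ x : PadicAlgCl p, ∃ y, y ^ p = x := fun x => IsAlgClosed.exists_pow_nat_eq x hpos
  choose r hr using hroot
  let ζ : ℕ → PadicAlgCl p := fun n => Nat.recOn n 1 fun k z => if k = 0 then ζ₁ else r z
  have hζ0 : ζ 0 = 1 := rfl
  have hζ1 : ζ 1 = ζ₁ := rfl
  have hζs : ∀ n, ζ (n + 2) = r (ζ (n + 1)) := fun n => rfl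
  refine ⟨ζ, fun n => ?_, fun n => ?_⟩
  · cases n with
    | zero => rw [zero_add, hζ1, hζ0]; exact h₁.pow_eq_one
    | succ n => rw [hζs, hr]
  · cases n with
    | zero => rw [hζ0, pow_zero]; exact IsPrimitiveRoot.one
    | succ n =>
      induction n with
      | zero => rw [zero_add, pow_one, hζ1]; exact h₁
      | succ n ih =>
        have hn : ζ (n + 2) ^ p = ζ (n + 1) := by rw [hζs, hr]
        have hprime : p.Prime := Fact.out
        have h2 : orderOf (ζ (n + 2)) = p ^ (n + 1 + 1) := by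
          refine orderOf_eq_prime_pow (fun h0 => ?_) ?_
          · rw [pow_succ', pow_mul, hn] at h0
            have := ih.pow_ne_one_of_pos_of_lt (l := p ^ n) (pow_ne_zero _ hp0)
              (Nat.pow_lt_pow_right hprime.one_lt (Nat.lt_succ_self n))
            exact this h0
          · rw [pow_succ', pow_mul, hn, ih.pow_eq_one]
        rw [← h2]
        exact IsPrimitiveRoot.orderOf _

variable (p) in
/-- a compatible system of roots of unity of `p`-power order -/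
def zt : ℕ → PadicAlgCl p := (exists_zeta p).choose

lemma zt_succ (n : ℕ) : zt p (n + 1) ^ p = zt p n := (exists_zeta p).choose_spec.1 n

lemma zt_prim (n : ℕ) : IsPrimitiveRoot (zt p n) (p ^ n) := (exists_zeta p).choose_spec.2 n

lemma zt_pow (m n : ℕ) : zt p (m + n) ^ p ^ n = zt p m := by
  induction n with
  | zero => simp
  | succ n ih => rw [pow_succ', pow_mul, ← add_assoc, zt_succ, ih]

lemma norm_zt (n : ℕ) : ‖zt p n‖ = 1 :=
  norm_root (pow_ne_zero n (Fact.out : p.Prime).ne_zero) (zt_prim n).pow_eq_one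

/-- an integral element of `ℚ_p`-bar as an element of the ring of integers of `ℂ_p` -/
def toO (x : PadicAlgCl p) (hx : ‖x‖ ≤ 1) : 𝓞_ℂ_[p] :=
  ⟨(x : ℂ_[p]), by rw [mem_int_iff, PadicComplex.norm_extends]; exact hx⟩

variable (p) in
/-- the roots of unity in the ring of integers of `ℂ_p` -/
def zO (n : ℕ) : 𝓞_ℂ_[p] := toO (zt p n) (norm_zt n).le

lemma coe_zO (n : ℕ) : ((zO p n : 𝓞_ℂ_[p]) : ℂ_[p]) = ((zt p n : PadicAlgCl p) : ℂ_[p]) := rfl

lemma coe_injective : Function.Injective (fun x : 𝓞_ℂ_[p] => (x : ℂ_[p])) :=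
  Subtype.coe_injective

lemma zO_succ (n : ℕ) : zO p (n + 1) ^ p = zO p n := by
  apply Subtype.ext
  rw [coe_zO, ← zt_succ n]
  have h1 := map_pow (algebraMap 𝓞_ℂ_[p] ℂ_[p]) (zO p (n + 1)) p
  have h2 := map_pow (algebraMap (PadicAlgCl p) ℂ_[p]) (zt p (n + 1)) p
  exact h1.trans h2.symm

variable (p) in
/-- the element `ε` of the tilt, as a compatible system -/
def epsP : Perfection 𝓞_ℂ_[p] p := ⟨zO p, zO_succ⟩

variable (p) in
/-- the `p`-th root of `ε`, as a compatible system -/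
def epsP1 : Perfection 𝓞_ℂ_[p] p := ⟨fun n => zO p (n + 1), fun n => zO_succ (n + 1)⟩

variable (p) in
/-- Fontaine's element `ε` -/
def eps : PreTilt 𝓞_ℂ_[p] p := tiltEquiv (epsP p)

variable (p) in
/-- the `p`-th root of `ε` -/
def eps1 : PreTilt 𝓞_ℂ_[p] p := tiltEquiv (epsP1 p)

lemma eps1_pow : eps1 p ^ p = eps p := by
  rw [eps1, eps, ← map_pow]
  congr 1
  apply Subtype.ext
  funext n
  change zO p (n + 1) ^ p = zO p n
  exact zO_succ n

lemma untilt_eps : (eps p).untilt = 1 := by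
  rw [eps, untilt_tiltEquiv]
  change zO p 0 = 1
  apply Subtype.ext
  rw [coe_zO]
  have h := (zt_prim (p := p) 0)
  rw [pow_zero, IsPrimitiveRoot.one_right_iff] at h
  rw [h]
  rfl

lemma untilt_eps1 : (eps1 p).untilt = zO p 1 := by
  rw [eps1, untilt_tiltEquiv]
  rfl

lemma norm_zO_sub_one (n : ℕ) :
    ‖((zO p (n + 1) : 𝓞_ℂ_[p]) : ℂ_[p]) - 1‖ ^ (p ^ n * (p - 1)) = (p : ℝ)⁻¹ := by
  have h : IsPrimitiveRoot ((zt p (n + 1) : PadicAlgCl p) : ℂ_[p]) (p ^ (n + 1)) :=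
    (zt_prim (n + 1)).map_of_injective
      (f := (algebraMap (PadicAlgCl p) ℂ_[p])) (algebraMap (PadicAlgCl p) ℂ_[p]).injective
  exact norm_zeta_sub_one norm_pC h

/-! ### The element `ω` -/

variable (p) in
/-- the element `η = ε^(1/p) - 1` of the tilt -/
def eta : PreTilt 𝓞_ℂ_[p] p := eps1 p - 1

variable (p) in
/-- The element `ω = 1 + [ε^(1/p)] + ... + [ε^(1/p)]^(p-1)` of `A_inf`. -/
def om : Ainf 𝓞_ℂ_[p] p := ∑ i ∈ Finset.range p, (teichmuller p (eps1 p)) ^ i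

lemma theta_om : fontaineTheta 𝓞_ℂ_[p] p (om p) = 0 := by
  rw [om, map_sum]
  simp only [map_pow, fontaineTheta_teichmuller, untilt_eps1]
  apply coe_injective
  change algebraMap 𝓞_ℂ_[p] ℂ_[p] _ = algebraMap 𝓞_ℂ_[p] ℂ_[p] 0
  rw [map_sum, map_zero]
  simp only [map_pow]
  have h : IsPrimitiveRoot ((zt p 1 : PadicAlgCl p) : ℂ_[p]) p := by
    have := (zt_prim (p := p) 1).map_of_injective
      (f := (algebraMap (PadicAlgCl p) ℂ_[p])) (algebraMap (PadicAlgCl p) ℂ_[p]).injective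
    rwa [pow_one] at this
  exact h.geom_sum_eq_zero (Fact.out : p.Prime).one_lt

lemma two_le_mul : 2 ≤ p * (p - 1) := by
  have := (Fact.out : p.Prime).two_le
  obtain ⟨q, rfl⟩ := Nat.exists_eq_add_of_le this
  have : 2 + q - 1 = q + 1 := by omega
  rw [this]
  nlinarith

lemma norm_zO_two : (p : ℝ)⁻¹ < ‖((zO p 2 : 𝓞_ℂ_[p]) : ℂ_[p]) - 1‖ := by
  by_contra hcon
  push Not at hcon
  have h := norm_zO_sub_one (p := p) 1
  rw [pow_one] at h
  have h0 := p_inv_pos (p := p)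
  have h1 := p_inv_lt_one (p := p)
  have h2 : ‖((zO p 2 : 𝓞_ℂ_[p]) : ℂ_[p]) - 1‖ ^ (p * (p - 1)) ≤ ((p : ℝ)⁻¹) ^ (p * (p - 1)) :=
    pow_le_pow_left₀ (norm_nonneg _) hcon _
  have h3 : ((p : ℝ)⁻¹) ^ (p * (p - 1)) ≤ ((p : ℝ)⁻¹) ^ 2 :=
    pow_le_pow_of_le_one h0.le h1.le two_le_mul
  rw [h] at h2
  have h4 : ((p : ℝ)⁻¹) ^ 2 < (p : ℝ)⁻¹ := by
    rw [pow_two]
    nlinarith
  linarith

lemma norm_untilt_eta : ‖((eta p).untilt : ℂ_[p])‖ ^ (p - 1) = (p : ℝ)⁻¹ := by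
  have h1 : Ideal.Quotient.mk (Ip p) (comp (eta p) 1) =
      Ideal.Quotient.mk (Ip p) (zO p 2 - 1) := by
    rw [mk_comp, eta, map_sub, map_one, map_sub, map_one, eps1, coeff_tiltEquiv]
    rfl
  rw [Ideal.Quotient.eq, mem_span_iff] at h1
  have h2 : ‖(comp (eta p) 1 : ℂ_[p]) - (((zO p 2 : 𝓞_ℂ_[p]) : ℂ_[p]) - 1)‖ ≤ (p : ℝ)⁻¹ := h1
  have h3 : ‖(comp (eta p) 1 : ℂ_[p])‖ = ‖((zO p 2 : 𝓞_ℂ_[p]) : ℂ_[p]) - 1‖ := by
    have h4 := h2.trans_lt (norm_zO_two (p := p))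
    have h5 : (comp (eta p) 1 : ℂ_[p]) = ((comp (eta p) 1 : ℂ_[p]) -
      (((zO p 2 : 𝓞_ℂ_[p]) : ℂ_[p]) - 1)) + (((zO p 2 : 𝓞_ℂ_[p]) : ℂ_[p]) - 1) := by ring
    rw [h5, IsUltrametricDist.norm_add_eq_max_of_norm_ne_norm h4.ne]
    exact max_eq_right h4.le
  rw [← norm_comp_pow (eta p) 1, h3, pow_one, ← pow_mul]
  have := norm_zO_sub_one (p := p) 1
  rwa [pow_one] at this

lemma untilt_eta_ne : ((eta p).untilt : ℂ_[p]) ≠ 0 := by
  intro h0
  have h := norm_untilt_eta (p := p)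
  have hp := (Fact.out : p.Prime).two_le
  rw [h0, norm_zero, zero_pow (by omega)] at h
  exact (p_inv_pos (p := p)).ne h

lemma eta_ne : eta p ≠ 0 := by
  intro h0
  apply untilt_eta_ne (p := p)
  have h1 : (eta p).untilt = 0 := by
    rw [h0]
    exact Perfection.teichmuller_zero
  rw [h1]; rfl

lemma om_coeff : (om p).coeff 0 = eta p ^ (p - 1) := by
  have h1 : (om p).coeff 0 = ∑ i ∈ Finset.range p, (eps1 p) ^ i := by
    change constantCoeff (om p) = _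
    rw [om, map_sum]
    refine Finset.sum_congr rfl fun i _ => ?_
    rw [map_pow]
    congr 1
  have h2 : (∑ i ∈ Finset.range p, (eps1 p) ^ i) * eta p = eta p ^ p := by
    rw [eta, geom_sum_mul, sub_pow_char, one_pow]
  have h3 : eta p ^ p = eta p ^ (p - 1) * eta p := by
    rw [← pow_succ]
    congr 1
    have := (Fact.out : p.Prime).two_le
    omega
  rw [h1]
  exact mul_right_cancel₀ eta_ne (h2.trans h3)

lemma om_coeff_ne : (om p).coeff 0 ≠ 0 := by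
  rw [om_coeff]
  exact pow_ne_zero _ eta_ne

lemma om_ne_zero : om p ≠ 0 := by
  intro h
  apply om_coeff_ne (p := p)
  rw [h]
  exact WittVector.zero_coeff p _ 0

lemma norm_untilt_om : ‖(((om p).coeff 0).untilt : ℂ_[p])‖ = (p : ℝ)⁻¹ := by
  rw [om_coeff, map_pow, ← norm_untilt_eta, ← norm_pow]
  congr 1

lemma zero_of_p_mul {x : 𝓞_ℂ_[p]} (h : ((p : ℕ) : 𝓞_ℂ_[p]) * x = 0) : x = 0 := by
  apply coe_injective
  have h1 : (((p : ℕ) : 𝓞_ℂ_[p]) : ℂ_[p]) * (x : ℂ_[p]) = 0 := congrArg Subtype.val h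
  rw [coe_p] at h1
  exact (mul_eq_zero.1 h1).resolve_left p_ne_zero_C

/-- one step of the division by `ω` -/
lemma om_step (x : Ainf 𝓞_ℂ_[p] p) (hx : fontaineTheta 𝓞_ℂ_[p] p x = 0) :
    ∃ y x' : Ainf 𝓞_ℂ_[p] p, x = om p * y + (p : Ainf 𝓞_ℂ_[p] p) * x' ∧
      fontaineTheta 𝓞_ℂ_[p] p x' = 0 := by
  have h1 : PreTilt.coeff 0 (x.coeff 0) = 0 := by
    rw [← mk_fontaineTheta, hx, map_zero]
  have h2 : ‖((x.coeff 0).untilt : ℂ_[p])‖ ≤ (p : ℝ)⁻¹ := by
    rw [← mem_span_iff, ← Ideal.Quotient.eq_zero_iff_mem, PreTilt.mk_untilt_eq_coeff_zero, h1]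
  have h3 : (((om p).coeff 0).untilt : ℂ_[p]) ≠ 0 := by
    rw [← norm_pos_iff, norm_untilt_om]
    exact p_inv_pos
  obtain ⟨z, hz⟩ := tilt_dvd (x.coeff 0) ((om p).coeff 0) h3 (by rw [norm_untilt_om]; exact h2)
  have h4 : x - om p * teichmuller p z ∈ span {(p : Ainf 𝓞_ℂ_[p] p)} := by
    rw [mem_span_p_iff_coeff_zero_eq_zero]
    have h5 : constantCoeff (x - om p * teichmuller p z) =
        constantCoeff x - constantCoeff (om p) * constantCoeff (teichmuller p z) := by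
      rw [map_sub, map_mul]
    refine h5.trans ?_
    change x.coeff 0 - (om p).coeff 0 * (teichmuller p z).coeff 0 = 0
    rw [teichmuller_coeff_zero, hz, sub_self]
  rw [Ideal.mem_span_singleton] at h4
  obtain ⟨x', hx'⟩ := h4
  refine ⟨teichmuller p z, x', by rw [← hx']; ring, ?_⟩
  have h5 := congrArg (fontaineTheta 𝓞_ℂ_[p] p) hx'
  rw [map_sub, map_mul, theta_om, hx, zero_mul, sub_zero, map_mul, map_natCast] at h5
  exact zero_of_p_mul h5.symm

/-- The kernel of `θ` is generated by `ω`. -/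
theorem om_dvd (x : Ainf 𝓞_ℂ_[p] p) (hx : fontaineTheta 𝓞_ℂ_[p] p x = 0) : om p ∣ x := by
  choose! y x' h1 h2 using om_step (p := p)
  let X : ℕ → Ainf 𝓞_ℂ_[p] p := fun n => x'^[n] x
  have hX : ∀ n, fontaineTheta 𝓞_ℂ_[p] p (X n) = 0 := by
    intro n
    induction n with
    | zero => exact hx
    | succ n ih =>
      change fontaineTheta 𝓞_ℂ_[p] p (x'^[n + 1] x) = 0
      rw [Function.iterate_succ_apply']
      exact h2 _ ih
  have hXs : ∀ n, X n = om p * y (X n) + (p : Ainf 𝓞_ℂ_[p] p) * X (n + 1) := by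
    intro n
    have : X (n + 1) = x' (X n) := Function.iterate_succ_apply' ..
    rw [this]
    exact h1 _ (hX n)
  let Y : ℕ → Ainf 𝓞_ℂ_[p] p := fun n => ∑ i ∈ Finset.range n, (p : Ainf 𝓞_ℂ_[p] p) ^ i * y (X i)
  have hY : ∀ n, x - om p * Y n = (p : Ainf 𝓞_ℂ_[p] p) ^ n * X n := by
    intro n
    induction n with
    | zero => simp [Y, X]
    | succ n ih =>
      have : Y (n + 1) = Y n + (p : Ainf 𝓞_ℂ_[p] p) ^ n * y (X n) := Finset.sum_range_succ ..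
      rw [this]
      have h3 := hXs n
      calc x - om p * (Y n + (p : Ainf 𝓞_ℂ_[p] p) ^ n * y (X n))
          = (x - om p * Y n) - (p : Ainf 𝓞_ℂ_[p] p) ^ n * (om p * y (X n)) := by ring
        _ = (p : Ainf 𝓞_ℂ_[p] p) ^ n * (X n - om p * y (X n)) := by rw [ih]; ring
        _ = (p : Ainf 𝓞_ℂ_[p] p) ^ n * ((p : Ainf 𝓞_ℂ_[p] p) * X (n + 1)) := by
            congr 1
            nth_rw 1 [h3]
            ring
        _ = _ := by ring
  have hc : ∀ {m n : ℕ}, m ≤ n →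
      Y m ≡ Y n [SMOD (span {(p : Ainf 𝓞_ℂ_[p] p)} ^ m • ⊤ :
        Submodule (Ainf 𝓞_ℂ_[p] p) (Ainf 𝓞_ℂ_[p] p))] := by
    intro m n hmn
    rw [SModEq.sub_mem, smul_eq_mul, mul_top, Ideal.span_singleton_pow, Ideal.mem_span_singleton]
    rw [dvd_sub_comm]
    have : Y n - Y m = ∑ i ∈ Finset.Ico m n, (p : Ainf 𝓞_ℂ_[p] p) ^ i * y (X i) :=
      (Finset.sum_Ico_eq_sub _ hmn).symm
    rw [this]
    refine Finset.dvd_sum fun i hi => ?_
    exact Dvd.dvd.mul_right (pow_dvd_pow _ (Finset.mem_Ico.1 hi).1) _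
  obtain ⟨L, hL⟩ := IsPrecomplete.prec' (I := span {(p : Ainf 𝓞_ℂ_[p] p)}) Y hc
  refine ⟨L, ?_⟩
  rw [← sub_eq_zero]
  apply IsHausdorff.haus' (I := span {(p : Ainf 𝓞_ℂ_[p] p)})
  intro n
  have h4 := hL n
  rw [SModEq.sub_mem, smul_eq_mul, mul_top, Ideal.span_singleton_pow,
    Ideal.mem_span_singleton] at h4
  rw [SModEq.zero, smul_eq_mul, mul_top, Ideal.span_singleton_pow, Ideal.mem_span_singleton]
  have : x - om p * L = (x - om p * Y n) + om p * (Y n - L) := by ring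
  rw [this, hY]
  exact dvd_add (Dvd.intro _ rfl) (Dvd.dvd.mul_left h4 _)

end Run7.h547
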