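import Pool.Agent.Run7.h547.FM.Act

/-!
# `B_dR` as an algebra over `ℚ_p`
-/

set_option autoImplicit false

noncomputable section

open Ideal WittVector

namespace Run7.h547

variable (p : ℕ) [Fact p.Prime] (R : Type*) [CommRing R] [Fact ¬IsUnit (p : R)]

/-- the embedding of `ℤ_p = W(𝔽_p)` in `A_inf = W(R♭)` -/
def zpToAinf : ℤ_[p] →+* Ainf R p :=
  (WittVector.map (ZMod.castHom (dvd_refl p) (PreTilt R p))).comp
    (WittVector.equiv p).symm.toRingHom

lemma ainfMap_zp (φ : R ≃+* R) (x : ℤ_[p]) : ainfMap φ (zpToAinf p R x) = zpToAinf p R x := by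
  have h : (tiltMap φ).comp (ZMod.castHom (dvd_refl p) (PreTilt R p)) =
      ZMod.castHom (dvd_refl p) (PreTilt R p) := Subsingleton.elim _ _
  ext n
  simp only [zpToAinf, ainfMap, RingHom.comp_apply, WittVector.map_coeff]
  exact RingHom.congr_fun h _

variable [IsAdicComplete (span {(p : R)}) R]

/-- the embedding of `ℤ_p` in `B_dR` -/
def zpToBdR : ℤ_[p] →+* BDeRham R p := (ainfToBdR R p).comp (zpToAinf p R)

lemma isUnit_p_bdR : IsUnit (zpToBdR p R (p : ℤ_[p])) := by
  rw [zpToBdR, RingHom.comp_apply, map_natCast]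
  exact (IsLocalization.Away.algebraMap_isUnit (S := AinfP R p) (p : Ainf R p)).map
    ((algebraMap (AdicCompletion (kerTheta R p) (AinfP R p))
      (Localization (gens (kerTheta R p)))).comp
    (algebraMap (AinfP R p) (AdicCompletion (kerTheta R p) (AinfP R p))))

lemma isUnit_zpToBdR (y : nonZeroDivisors ℤ_[p]) : IsUnit (zpToBdR p R y) := by
  have hy : (y : ℤ_[p]) ≠ 0 := nonZeroDivisors.coe_ne_zero y
  rw [PadicInt.unitCoeff_spec hy, map_mul, map_pow]
  exact ((PadicInt.unitCoeff hy).isUnit.map _).mul ((isUnit_p_bdR p R).pow _)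

/-- the embedding of `ℚ_p` in `B_dR` -/
def qpToBdR : ℚ_[p] →+* BDeRham R p :=
  IsLocalization.lift (M := nonZeroDivisors ℤ_[p]) (isUnit_zpToBdR p R)

/-- `B_dR` is an algebra over `ℚ_p` -/
instance instAlgebraBdR : Algebra ℚ_[p] (BDeRham R p) := (qpToBdR p R).toAlgebra

lemma algebraMap_bdR (x : ℤ_[p]) :
    algebraMap ℚ_[p] (BDeRham R p) (algebraMap ℤ_[p] ℚ_[p] x) = zpToBdR p R x :=
  IsLocalization.lift_eq (M := nonZeroDivisors ℤ_[p]) (isUnit_zpToBdR p R) x

variable {R}

/-- the endomorphism of the `ℚ_p`-algebra `B_dR` induced by an automorphism of `R` -/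
def bdRAct (φ : R ≃+* R) : BDeRham R p →ₐ[ℚ_[p]] BDeRham R p :=
  { bdRMap φ with
    commutes' := fun x => by
      have : (bdRMap φ).comp (algebraMap ℚ_[p] (BDeRham R p)) =
          algebraMap ℚ_[p] (BDeRham R p) := by
        refine IsLocalization.ringHom_ext (nonZeroDivisors ℤ_[p]) ?_
        ext x : 1
        simp only [RingHom.comp_apply]
        rw [algebraMap_bdR, zpToBdR, RingHom.comp_apply, bdRMap_ainf, ainfMap_zp]
      exact RingHom.congr_fun this x }

lemma bdRAct_apply (φ : R ≃+* R) (b : BDeRham R p) : bdRAct p φ b = bdRMap φ b := rfl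

end Run7.h547
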