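import Pool.Agent.Run7.h547.FM.Kappa
import Pool.Agent.Run7.h547.FM.Adic
import Pool.Agent.Run7.h547.FM.Zp

/-!
# Elements of `B_dR` on which a group of automorphisms acts through `ℤ_p`

Such an element gives rise to a non-zero element of `ℂ_p` on which the group acts in the same way,
up to an integral power of the cyclotomic character.
-/

set_option autoImplicit false

noncomputable section

open Ideal WittVector

namespace Run7.h547

variable {p : ℕ} [Fact p.Prime]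

lemma theta_zp (x : ℤ_[p]) : (fontaineTheta 𝓞_ℂ_[p] p (zpToAinf p 𝓞_ℂ_[p] x) : ℂ_[p]) = zC x := by
  rw [← sub_eq_zero, ← norm_eq_zero]
  refine le_antisymm ?_ (norm_nonneg _)
  refine ge_of_tendsto' (tendsto_pow_atTop_nhds_zero_of_lt_one p_inv_pos.le
    (p_inv_lt_one (p := p))) fun k => ?_
  have hk : x - (PadicInt.appr x k : ℤ_[p]) ∈ span {(p : ℤ_[p]) ^ k} := PadicInt.appr_spec k x
  rw [Ideal.mem_span_singleton] at hk
  obtain ⟨y, hy⟩ := hk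
  have hx : x = (PadicInt.appr x k : ℤ_[p]) + (p : ℤ_[p]) ^ k * y := by rw [← hy]; ring
  have h1 : (fontaineTheta 𝓞_ℂ_[p] p (zpToAinf p 𝓞_ℂ_[p] x) : ℂ_[p]) =
      (PadicInt.appr x k : ℂ_[p]) + (p : ℂ_[p]) ^ k *
        (fontaineTheta 𝓞_ℂ_[p] p (zpToAinf p 𝓞_ℂ_[p] y) : ℂ_[p]) := by
    have : (fontaineTheta 𝓞_ℂ_[p] p (zpToAinf p 𝓞_ℂ_[p] x)) =
        (PadicInt.appr x k : 𝓞_ℂ_[p]) + ((p : ℕ) : 𝓞_ℂ_[p]) ^ k *
        (fontaineTheta 𝓞_ℂ_[p] p (zpToAinf p 𝓞_ℂ_[p] y)) := by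
      conv_lhs => rw [hx]
      simp only [map_add, map_mul, map_pow, map_natCast]
    rw [this]
    have h2 := congrArg (algebraMap 𝓞_ℂ_[p] ℂ_[p]) this
    simp only [map_add, map_mul, map_pow, map_natCast] at h2
    rw [← this]
    exact h2
  have h2 : zC x = (PadicInt.appr x k : ℂ_[p]) + (p : ℂ_[p]) ^ k * zC y := by
    conv_lhs => rw [hx]
    simp only [map_add, map_mul, map_pow, map_natCast]
  rw [h1, h2, add_sub_add_left_eq_sub, ← mul_sub, norm_mul, norm_pow, norm_pC]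
  refine mul_le_of_le_one_right (pow_nonneg p_inv_pos.le _) ?_
  refine (norm_sub_le_max' _ _).trans (max_le (norm_int _) ?_)
  rw [norm_zC]
  exact PadicInt.norm_le_one y

variable (p) in
/-- the image of `ω` in `A_inf[1/p]` -/
def omP : AinfP 𝓞_ℂ_[p] p := algebraMap (Ainf 𝓞_ℂ_[p] p) (AinfP 𝓞_ℂ_[p] p) (om p)

lemma p_ne_zero_ainf : (p : Ainf 𝓞_ℂ_[p] p) ≠ 0 := by
  intro h
  have h1 := congrArg (fontaineTheta 𝓞_ℂ_[p] p) h
  rw [map_natCast, map_zero] at h1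
  have h2 := congrArg (algebraMap 𝓞_ℂ_[p] ℂ_[p]) h1
  rw [map_natCast, map_zero] at h2
  exact p_ne_zero_C h2

lemma powers_le : Submonoid.powers (p : Ainf 𝓞_ℂ_[p] p) ≤ nonZeroDivisors (Ainf 𝓞_ℂ_[p] p) :=
  powers_le_nonZeroDivisors_of_noZeroDivisors p_ne_zero_ainf

instance instDomAinfP : IsDomain (AinfP 𝓞_ℂ_[p] p) :=
  IsLocalization.isDomain_localization powers_le

lemma omP_ne_zero : omP p ≠ 0 := by
  intro h
  have h1 : Function.Injective (algebraMap (Ainf 𝓞_ℂ_[p] p) (AinfP 𝓞_ℂ_[p] p)) :=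
    IsLocalization.injective _ powers_le
  exact om_ne_zero (h1 (by rw [map_zero]; exact h))

lemma isUnit_theta_p : IsUnit (((algebraMap 𝓞_ℂ_[p] ℂ_[p]).comp (fontaineTheta 𝓞_ℂ_[p] p))
    (p : Ainf 𝓞_ℂ_[p] p)) := by
  rw [RingHom.comp_apply, map_natCast, map_natCast]
  exact isUnit_iff_ne_zero.2 p_ne_zero_C

variable (p) in
/-- the map `θ : A_inf[1/p] → ℂ_p` -/
def bigTheta : AinfP 𝓞_ℂ_[p] p →+* ℂ_[p] :=
  Localization.awayLift ((algebraMap 𝓞_ℂ_[p] ℂ_[p]).comp (fontaineTheta 𝓞_ℂ_[p] p))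
    (p : Ainf 𝓞_ℂ_[p] p) isUnit_theta_p

lemma bigTheta_algebraMap (x : Ainf 𝓞_ℂ_[p] p) :
    bigTheta p (algebraMap _ _ x) = (fontaineTheta 𝓞_ℂ_[p] p x : ℂ_[p]) :=
  IsLocalization.Away.lift_eq (p : Ainf 𝓞_ℂ_[p] p) isUnit_theta_p x

lemma exists_num (x : AinfP 𝓞_ℂ_[p] p) : ∃ (n : ℕ) (a : Ainf 𝓞_ℂ_[p] p),
    x * (p : AinfP 𝓞_ℂ_[p] p) ^ n = algebraMap _ _ a := by
  obtain ⟨n, a, h⟩ := IsLocalization.Away.surj (p : Ainf 𝓞_ℂ_[p] p) x
  rw [map_natCast] at h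
  exact ⟨n, a, h⟩

lemma isUnit_p_ainfP : IsUnit (p : AinfP 𝓞_ℂ_[p] p) := by
  have := IsLocalization.Away.algebraMap_isUnit (S := AinfP 𝓞_ℂ_[p] p) (p : Ainf 𝓞_ℂ_[p] p)
  rwa [map_natCast] at this

lemma coe_eq_zero_iff (x : 𝓞_ℂ_[p]) : (x : ℂ_[p]) = 0 ↔ x = 0 :=
  ⟨fun h => coe_injective h, fun h => by rw [h]; rfl⟩

lemma bigTheta_eq_zero_iff (x : AinfP 𝓞_ℂ_[p] p) :
    bigTheta p x = 0 ↔ x ∈ kerTheta 𝓞_ℂ_[p] p := by
  obtain ⟨n, a, h⟩ := exists_num x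
  have h1 := congrArg (bigTheta p) h
  have h2 := congrArg (fontaineThetaInvertP 𝓞_ℂ_[p] p) h
  rw [map_mul, map_pow, map_natCast, bigTheta_algebraMap] at h1
  rw [map_mul, map_pow, map_natCast] at h2
  have h2' : _ = algebraMap _ _ (fontaineTheta 𝓞_ℂ_[p] p a) := h2.trans (thetaP_algebraMap a)
  have hA : bigTheta p x = 0 ↔ fontaineTheta 𝓞_ℂ_[p] p a = 0 := by
    rw [← coe_eq_zero_iff, ← h1, mul_eq_zero]
    constructor
    · exact Or.inl
    · intro h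
      exact h.resolve_right (pow_ne_zero n p_ne_zero_C)
  have hpu : IsUnit (((p : ℕ) : Localization.Away ((p : ℕ) : 𝓞_ℂ_[p]))) := by
    have := IsLocalization.Away.algebraMap_isUnit (S := Localization.Away ((p : ℕ) : 𝓞_ℂ_[p]))
      ((p : ℕ) : 𝓞_ℂ_[p])
    rwa [map_natCast] at this
  have hinj : Function.Injective (algebraMap 𝓞_ℂ_[p] (Localization.Away ((p : ℕ) : 𝓞_ℂ_[p]))) := by
    refine IsLocalization.injective (M := Submonoid.powers ((p : ℕ) : 𝓞_ℂ_[p])) _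
      (powers_le_nonZeroDivisors_of_noZeroDivisors ?_)
    intro h0
    have h3 := congrArg (algebraMap 𝓞_ℂ_[p] ℂ_[p]) h0
    rw [map_natCast, map_zero] at h3
    exact p_ne_zero_C h3
  rw [hA, RingHom.mem_ker]
  constructor
  · intro h
    rw [h, map_zero] at h2'
    exact (IsUnit.mul_left_eq_zero (hpu.pow n)).1 h2'
  · intro h
    rw [h, zero_mul] at h2'
    exact hinj (by rw [map_zero]; exact h2'.symm)

lemma kerTheta_eq : kerTheta 𝓞_ℂ_[p] p = span {omP p} := by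
  refine le_antisymm (fun x hx => ?_) ?_
  · rw [← bigTheta_eq_zero_iff] at hx
    obtain ⟨n, a, h⟩ := exists_num x
    have h1 := congrArg (bigTheta p) h
    rw [map_mul, hx, zero_mul, bigTheta_algebraMap] at h1
    obtain ⟨b, rfl⟩ := om_dvd a ((coe_eq_zero_iff _).1 h1.symm)
    rw [Ideal.mem_span_singleton]
    rw [map_mul] at h
    obtain ⟨u, hu⟩ := (isUnit_p_ainfP (p := p)).pow n
    rw [← hu] at h
    refine ⟨algebraMap _ _ b * (u⁻¹ : (AinfP 𝓞_ℂ_[p] p)ˣ), ?_⟩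
    rw [← mul_assoc]
    change x = algebraMap _ _ (om p) * algebraMap _ _ b * _
    rw [← h, mul_assoc, Units.mul_inv, mul_one]
  · rw [Ideal.span_le, Set.singleton_subset_iff, SetLike.mem_coe, ← bigTheta_eq_zero_iff, omP,
      bigTheta_algebraMap, theta_om]
    rfl

lemma exists_c (σ : GQ p) : ∃ c : Ainf 𝓞_ℂ_[p] p, ainfMap (actO σ) (om p) = c * om p := by
  obtain ⟨c, hc⟩ := om_dvd (ainfMap (actO σ) (om p)) (by rw [theta_ainfMap, theta_om, map_zero])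
  exact ⟨c, by rw [hc, mul_comm]⟩

lemma bigTheta_locMap (σ : GQ p) (x : AinfP 𝓞_ℂ_[p] p) :
    bigTheta p (locMap (actO σ) x) = actC σ (bigTheta p x) := by
  have : (bigTheta p).comp (locMap (actO σ)) = (actC σ : ℂ_[p] →+* ℂ_[p]).comp (bigTheta p) := by
    refine IsLocalization.ringHom_ext (Submonoid.powers (p : Ainf 𝓞_ℂ_[p] p)) ?_
    ext x : 1
    simp only [RingHom.comp_apply]
    rw [locMap_algebraMap, bigTheta_algebraMap, bigTheta_algebraMap, theta_ainfMap]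
    rfl
  exact RingHom.congr_fun this x

/-- An element of `B_dR` on which automorphisms act through `ℤ_p` gives an element of `ℂ_p`. -/
theorem exists_of_bdR (S : Set (GQ p)) (l : GQ p → ℤ_[p]) (b : BDeRham 𝓞_ℂ_[p] p) (hb : b ≠ 0)
    (h : ∀ σ ∈ S, bdRMap (actO σ) b = zpToBdR p 𝓞_ℂ_[p] (l σ) * b) :
    ∃ (z : ℂ_[p]) (j : ℤ), z ≠ 0 ∧ ∀ σ ∈ S,
      actC σ z = zC (l σ) * (zC (chi σ : ℤ_[p])) ^ j * z := by
  choose c hc using exists_c (p := p)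
  obtain ⟨m, k, u, hu, hmk⟩ := leading_term (kerTheta 𝓞_ℂ_[p] p) (omP p) kerTheta_eq omP_ne_zero
    (Γ := S) (fun σ => locEquiv (actO σ.1)) (fun σ => kerTheta_le_comap _)
    (fun σ => kerTheta_le_comap _)
    (fun σ => algebraMap (Ainf 𝓞_ℂ_[p] p) _ (zpToAinf p 𝓞_ℂ_[p] (l σ.1)))
    (fun σ => algebraMap (Ainf 𝓞_ℂ_[p] p) _ (c σ.1))
    (fun σ => by
      change locMap (actO σ.1) _ = _
      rw [omP, locMap_algebraMap, hc, map_mul])
    b hb (fun σ => h σ.1 σ.2)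
  set x := bigTheta p u with hx
  have hx0 : x ≠ 0 := fun h0 => hu ((bigTheta_eq_zero_iff u).1 h0)
  set y : ℂ_[p] := ((zO p 1 : 𝓞_ℂ_[p]) : ℂ_[p]) - 1 with hy
  have hy0 : y ≠ 0 := by
    intro h0
    have h1 := norm_zO_sub_one (p := p) 0
    have hp := (Fact.out : p.Prime).two_le
    rw [zero_add, ← hy, h0, norm_zero, zero_pow (by rw [pow_zero, one_mul]; omega)] at h1
    exact (p_inv_pos (p := p)).ne h1
  have hchi0 : ∀ σ : GQ p, zC (chi σ : ℤ_[p]) ≠ 0 := by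
    intro σ h0
    have h1 := norm_zC (chi σ : ℤ_[p])
    rw [h0, norm_zero, PadicInt.norm_units] at h1
    exact zero_ne_one h1
  have hkap : ∀ σ : GQ p, bigTheta p (algebraMap _ _ (c σ)) * actC σ y = zC (chi σ : ℤ_[p]) * y := by
    intro σ
    rw [bigTheta_algebraMap]
    exact kappa σ (c σ) (hc σ)
  have hsy0 : ∀ σ : GQ p, actC σ y ≠ 0 := by
    intro σ
    exact (map_ne_zero_iff (actC σ) (actC σ).injective).2 hy0
  have hkap0 : ∀ σ : GQ p, bigTheta p (algebraMap _ _ (c σ)) ≠ 0 := by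
    intro σ h0
    have h1 := hkap σ
    rw [h0, zero_mul] at h1
    exact mul_ne_zero (hchi0 σ) hy0 h1.symm
  refine ⟨x * y ^ ((k : ℤ) - m), (k : ℤ) - m, mul_ne_zero hx0 (zpow_ne_zero _ hy0),
    fun σ hσ => ?_⟩
  have h1 := hmk ⟨σ, hσ⟩
  rw [← bigTheta_eq_zero_iff, map_sub, sub_eq_zero, map_mul, map_mul, map_mul, map_pow,
    map_pow] at h1
  have h2 : bigTheta p (locEquiv (actO σ) u) = actC σ x := bigTheta_locMap σ u
  have h3 : bigTheta p (algebraMap (Ainf 𝓞_ℂ_[p] p) (AinfP 𝓞_ℂ_[p] p)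
      (zpToAinf p 𝓞_ℂ_[p] (l σ))) = zC (l σ) := by
    rw [bigTheta_algebraMap, theta_zp]
  simp only at h1
  rw [h2, h3, ← hx] at h1
  set K := bigTheta p (algebraMap _ _ (c σ)) with hK
  have h4 : actC σ x = zC (l σ) * K ^ ((k : ℤ) - m) * x := by
    apply mul_left_cancel₀ (pow_ne_zero m (hkap0 σ))
    rw [h1, zpow_sub₀ (hkap0 σ), zpow_natCast, zpow_natCast]
    calc zC (l σ) * K ^ k * x = (K ^ m * (K ^ m)⁻¹) * (zC (l σ) * K ^ k * x) := by
          rw [mul_inv_cancel₀ (pow_ne_zero m (hkap0 σ)), one_mul]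
      _ = _ := by rw [div_eq_mul_inv]; ring
  rw [map_mul, map_zpow₀, h4]
  have h5 : (K * actC σ y) ^ ((k : ℤ) - m) = (zC (chi σ : ℤ_[p]) * y) ^ ((k : ℤ) - m) := by
    rw [hkap σ]
  rw [mul_zpow, mul_zpow] at h5
  calc zC (l σ) * K ^ ((k : ℤ) - m) * x * (actC σ y) ^ ((k : ℤ) - m)
      = zC (l σ) * x * (K ^ ((k : ℤ) - m) * (actC σ y) ^ ((k : ℤ) - m)) := by ring
    _ = _ := by rw [h5]; ring

end Run7.h547
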