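import Pool.Agent.Run7.h547.FM.LDefs
import Pool.Agent.Run7.h547.FM.Lead
import Pool.Agent.Run7.h658.FM.F1
import Pool.Agent.Run7.h658.FM.G3
import Pool.Agent.Run7.h902.TateC

/-!
# A pure and integral representation which is not de Rham

We prove that the second condition of MP_395897_nt does not imply the first one. The representation
is the character `h(χ)⁻¹`, where `χ` is the `l`-adic cyclotomic character and `h` is a character of
`ℤ_l^×` whose square is, up to a character of finite order, the identity.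

The pieces of the proof: Ax's lemma, the gap lemma for the cyclotomic tower and Tate's theorem
`H^0(G, ℂ_l(r)) = 0` are due to helper902; the square root character `h` and the study of the places
away from `l` are due to helper658.
-/

set_option autoImplicit false

noncomputable section

open TensorProduct

namespace Run7.h547

variable {F : Type} [Field F] {l : ℕ} [Fact l.Prime] {n : ℕ}

open scoped Classical in
/-- coordinates of an element of `B ⊗ V` -/
def coords {B V : Type*} [CommRing B] [Algebra ℚ_[l] B] [AddCommGroup V] [Module ℚ_[l] V]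
    (x : B ⊗[ℚ_[l]] V) : Module.Basis.ofVectorSpaceIndex ℚ_[l] V →₀ B :=
  TensorProduct.equivFinsuppOfBasisRight (Module.Basis.ofVectorSpace ℚ_[l] V) x

section

variable {B V : Type*} [CommRing B] [Algebra ℚ_[l] B] [AddCommGroup V] [Module ℚ_[l] V]

lemma coords_tmul (b : B) (v : V) (i : Module.Basis.ofVectorSpaceIndex ℚ_[l] V) :
    coords (b ⊗ₜ[ℚ_[l]] v) i = (Module.Basis.ofVectorSpace ℚ_[l] V).repr v i • b := by
  classical exact TensorProduct.equivFinsuppOfBasisRight_apply_tmul_apply ..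

lemma coords_zero : coords (0 : B ⊗[ℚ_[l]] V) = 0 := map_zero _

lemma coords_add (x y : B ⊗[ℚ_[l]] V) : coords (x + y) = coords x + coords y := map_add _ _ _

lemma coords_ne {x : B ⊗[ℚ_[l]] V} (hx : x ≠ 0) : ∃ i, coords x i ≠ 0 := by
  by_contra! hcon
  apply hx
  have h1 : coords x = 0 := Finsupp.ext hcon
  classical
  exact (TensorProduct.equivFinsuppOfBasisRight (Module.Basis.ofVectorSpace ℚ_[l] V)).injective
    (h1.trans coords_zero.symm)

lemma coords_map (f : B →ₗ[ℚ_[l]] B) (c : ℚ_[l]) (g : V →ₗ[ℚ_[l]] V)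
    (hg : ∀ v, g v = c • v) (x : B ⊗[ℚ_[l]] V) (i : Module.Basis.ofVectorSpaceIndex ℚ_[l] V) :
    coords (TensorProduct.map f g x) i = c • f (coords x i) := by
  induction x using TensorProduct.induction_on with
  | zero => rw [map_zero, coords_zero, Finsupp.zero_apply, map_zero, smul_zero]
  | tmul b v =>
    rw [TensorProduct.map_tmul, hg, coords_tmul, coords_tmul, map_smul, map_smul,
      Finsupp.smul_apply, smul_eq_mul, mul_smul]
  | add x y hx hy =>
    rw [map_add, coords_add, coords_add, Finsupp.add_apply, Finsupp.add_apply, hx, hy, map_add,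
      smul_add]

/-- If `B ⊗ V` is generated by a set, then this set has a non-zero element. -/
lemma exists_ne_of_span [Nontrivial B] [Nontrivial V] (S : Set (B ⊗[ℚ_[l]] V))
    (h : Submodule.span B S = ⊤) : ∃ x ∈ S, x ≠ 0 := by
  by_contra! hcon
  have h1 : Submodule.span B S = ⊥ := by
    rw [Submodule.span_eq_bot]
    exact hcon
  have h2 : (⊤ : Submodule B (B ⊗[ℚ_[l]] V)) = ⊥ := h.symm.trans h1
  obtain ⟨v, hv⟩ := exists_ne (0 : V)
  have h3 : (1 : B) ⊗ₜ[ℚ_[l]] v = 0 := by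
    have : (1 : B) ⊗ₜ[ℚ_[l]] v ∈ (⊤ : Submodule B (B ⊗[ℚ_[l]] V)) := trivial
    rw [h2] at this
    exact this
  have h4 : (Module.Basis.ofVectorSpace ℚ_[l] V).repr v ≠ 0 := by
    intro h0
    exact hv ((Module.Basis.ofVectorSpace ℚ_[l] V).repr.map_eq_zero_iff.1 h0)
  obtain ⟨i, hi⟩ := Finsupp.ne_iff.1 h4
  have h5 := coords_tmul (1 : B) v i
  rw [h3, coords_zero, Finsupp.zero_apply] at h5
  rw [Finsupp.zero_apply] at hi
  have h6 := h5.symm
  rw [Algebra.smul_def, mul_one] at h6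
  exact hi ((map_eq_zero_iff _ (algebraMap ℚ_[l] B).injective).1 h6)

end

lemma bdR_nontrivial : Nontrivial (BDeRham 𝓞_ℂ_[l] l) := by
  have h0 : Nontrivial (AdicCompletion (kerTheta 𝓞_ℂ_[l] l) (AinfP 𝓞_ℂ_[l] l)) := by
    have hne : kerTheta 𝓞_ℂ_[l] l ≠ ⊤ := by
      intro h
      have h1 : (1 : AinfP 𝓞_ℂ_[l] l) ∈ kerTheta 𝓞_ℂ_[l] l := by rw [h]; trivial
      rw [← bigTheta_eq_zero_iff, map_one] at h1
      exact one_ne_zero h1
    have h2 : Nontrivial (AinfP 𝓞_ℂ_[l] l ⧸ kerTheta 𝓞_ℂ_[l] l ^ 1) := by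
      rw [pow_one]
      exact Ideal.Quotient.nontrivial_iff.2 hne
    exact (AdicCompletion.evalₐ (kerTheta 𝓞_ℂ_[l] l) 1).toRingHom.domain_nontrivial
  exact (algebraMap_injective (kerTheta 𝓞_ℂ_[l] l) (omP l) kerTheta_eq omP_ne_zero).nontrivial

/-! ### Embeddings -/

lemma exists_embedding (F : Type) [Field F] [NumberField F] (l : ℕ) [Fact l.Prime] :
    Nonempty (AlgebraicClosure F →+* PadicAlgCl l) := by
  let _ : Algebra ℚ (AlgebraicClosure F) := DivisionRing.toRatAlgebra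
  let _ : Algebra ℚ (PadicAlgCl l) := DivisionRing.toRatAlgebra
  have : Algebra.IsAlgebraic ℚ (AlgebraicClosure F) :=
    Algebra.IsAlgebraic.trans ℚ F (AlgebraicClosure F)
  exact ⟨(IsAlgClosed.lift (R := ℚ) (S := AlgebraicClosure F) (M := PadicAlgCl l)).toRingHom⟩

lemma exists_restriction (ι : AlgebraicClosure F →+* PadicAlgCl l) (σ : GQ l)
    (h : ∀ a : F, σ (ι (algebraMap F (AlgebraicClosure F) a)) =
      ι (algebraMap F (AlgebraicClosure F) a)) : ∃ τ : GF F, IsRestriction ι σ τ := by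
  let _ : Algebra (AlgebraicClosure F) (PadicAlgCl l) := ι.toAlgebra
  let _ : Algebra F (PadicAlgCl l) := (ι.comp (algebraMap F (AlgebraicClosure F))).toAlgebra
  have : IsScalarTower F (AlgebraicClosure F) (PadicAlgCl l) :=
    IsScalarTower.of_algebraMap_eq fun x => rfl
  let σ' : PadicAlgCl l ≃ₐ[F] PadicAlgCl l :=
    { (σ : PadicAlgCl l ≃+* PadicAlgCl l) with commutes' := h }
  refine ⟨σ'.restrictNormal (AlgebraicClosure F), fun a => ?_⟩
  exact AlgEquiv.restrictNormal_commutes σ' (AlgebraicClosure F) a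

lemma chi_restriction [CharZero F] (ι : AlgebraicClosure F →+* PadicAlgCl l) (σ : GQ l) (τ : GF F)
    (h : IsRestriction ι σ τ) : cyclotomicCharacter (AlgebraicClosure F) l
      (τ : AlgebraicClosure F ≃+* AlgebraicClosure F) = chi σ := by
  have hl : l ≠ 0 := (Fact.out : l.Prime).ne_zero
  have hne : NeZero ((l : ℕ) : AlgebraicClosure F) := ⟨by exact_mod_cast hl⟩
  have hne' : NeZero ((l : ℕ) : PadicAlgCl l) := ⟨by exact_mod_cast hl⟩
  apply Units.ext
  refine PadicInt.ext_of_toZModPow.1 fun n => ?_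
  have : NeZero (l ^ n) := ⟨pow_ne_zero _ hl⟩
  obtain ⟨ζ, hζ⟩ := HasEnoughRootsOfUnity.exists_primitiveRoot (AlgebraicClosure F) (l ^ n)
  have h1 := cyclotomicCharacter.spec (L := AlgebraicClosure F) l
    (τ : AlgebraicClosure F ≃+* AlgebraicClosure F) ζ hζ.pow_eq_one
  have h2 := cyclotomicCharacter.spec (L := PadicAlgCl l) l
    (σ : PadicAlgCl l ≃+* PadicAlgCl l) (ι ζ) (n := n) (by rw [← map_pow, hζ.pow_eq_one, map_one])
  have h3 := congrArg ι h1
  rw [map_pow] at h3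
  have h4 : ι ((τ : AlgebraicClosure F ≃+* AlgebraicClosure F) ζ) =
    (σ : PadicAlgCl l ≃+* PadicAlgCl l) (ι ζ) := h ζ
  rw [h4, h2] at h3
  have h5 : IsPrimitiveRoot (ι ζ) (l ^ n) := hζ.map_of_injective ι.injective
  have h6 := h5.pow_inj (ZMod.val_lt _) (ZMod.val_lt _) h3
  exact (ZMod.val_injective _ h6).symm

lemma exists_finite_ext [NumberField F] (ι : AlgebraicClosure F →+* PadicAlgCl l) (N : ℕ) :
    ∃ E : IntermediateField ℚ_[l] (PadicAlgCl l), FiniteDimensional ℚ_[l] E ∧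
      ∀ σ ∈ E.fixingSubgroup, (∀ a : F, σ (ι (algebraMap F (AlgebraicClosure F) a)) =
        ι (algebraMap F (AlgebraicClosure F) a)) ∧
        ‖(chi σ : ℤ_[l]) - 1‖ ≤ (l : ℝ) ^ (-(N : ℤ)) := by
  let b := Module.finBasis ℚ F
  let S : Set (PadicAlgCl l) :=
    Set.range (fun i => ι (algebraMap F (AlgebraicClosure F) (b i))) ∪ {zt l N}
  have hfin : Finite S := (Set.finite_range _).union (Set.finite_singleton _)
  have hE : FiniteDimensional ℚ_[l] (IntermediateField.adjoin ℚ_[l] S) :=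
    IntermediateField.finiteDimensional_adjoin fun x _ =>
      (Algebra.IsAlgebraic.isAlgebraic (R := ℚ_[l]) x).isIntegral
  refine ⟨IntermediateField.adjoin ℚ_[l] S, hE, fun σ hσ => ?_⟩
  rw [IntermediateField.mem_fixingSubgroup_iff] at hσ
  constructor
  · have hfg : ((σ : PadicAlgCl l →+* PadicAlgCl l).comp
        (ι.comp (algebraMap F (AlgebraicClosure F)))).toRatAlgHom.toLinearMap =
        (ι.comp (algebraMap F (AlgebraicClosure F))).toRatAlgHom.toLinearMap := by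
      refine b.ext fun i => ?_
      exact hσ _ (IntermediateField.subset_adjoin _ _ (Or.inl ⟨i, rfl⟩))
    intro a
    exact LinearMap.congr_fun hfg a
  · have h1 : σ (zt l N) = zt l N := hσ _ (IntermediateField.subset_adjoin _ _ (Or.inr rfl))
    rw [gal_zt] at h1
    have h2 : (PadicInt.toZModPow N) ((chi σ : ℤ_[l]) - 1) = 0 := by
      rw [map_sub, map_one, sub_eq_zero]
      have : NeZero (l ^ N) := ⟨pow_ne_zero _ (Fact.out : l.Prime).ne_zero⟩
      have h3 : (zt l N) ^ chiN σ N = zt l N ^ 1 := by rw [h1, pow_one]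
      have h5 : chiN σ N ≡ 1 [MOD l ^ N] := by
        rcases Nat.eq_zero_or_pos N with rfl | hN
        · rw [pow_zero]; exact Nat.modEq_one
        · have h6 : 1 < l ^ N := Nat.one_lt_pow hN.ne' (Fact.out : l.Prime).one_lt
          have h7 : chiN σ N = 1 := (zt_prim (p := l) N).pow_inj (ZMod.val_lt _) h6 h3
          rw [h7]
      have h7 := (ZMod.natCast_eq_natCast_iff _ _ _).2 h5
      rw [Nat.cast_one] at h7
      rw [← h7]
      exact (ZMod.natCast_zmod_val _).symm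
    have h8 : (chi σ : ℤ_[l]) - 1 ∈ RingHom.ker (PadicInt.toZModPow (p := l) N) := h2
    rwa [PadicInt.ker_toZModPow, ← PadicInt.norm_le_pow_iff_mem_span_pow] at h8

/-- A one-dimensional representation which is given by a square root of the inverse of the
cyclotomic character, up to a character of finite order, is not de Rham. -/
theorem not_deRham {F : Type} [Field F] [NumberField F] (h : ℤ_[l]ˣ →* (PadicAlgCl l)ˣ) (N : ℕ)
    (hN : ∀ u : ℤ_[l]ˣ, ‖(u : ℤ_[l]) - 1‖ ≤ (l : ℝ) ^ (-(N : ℤ)) →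
      ∃ c : ℤ_[l]ˣ, (h u : PadicAlgCl l) = algebraMap ℚ_[l] (PadicAlgCl l) ((c : ℤ_[l]) : ℚ_[l]) ∧
        c ^ 2 = u) (ρ : Rep F l 1)
    (hρ : ∀ τ : GF F, (ρ τ : Matrix (Fin 1) (Fin 1) (PadicAlgCl l)) =
        Matrix.scalar (Fin 1) (((h (cyclotomicCharacter (AlgebraicClosure F) l
          (τ : AlgebraicClosure F ≃+* AlgebraicClosure F)))⁻¹ : (PadicAlgCl l)ˣ) : PadicAlgCl l))
    (ι : AlgebraicClosure F →+* PadicAlgCl l) : ¬ IsDeRham ρ ι := by
  intro hdR
  have := bdR_nontrivial (l := l)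
  obtain ⟨x, hx, hx0⟩ := exists_ne_of_span _ hdR
  obtain ⟨i, hi⟩ := coords_ne hx0
  -- the square root
  have hsq : ∀ σ : GQ l, ‖(chi σ : ℤ_[l]) - 1‖ ≤ (l : ℝ) ^ (-(N : ℤ)) →
      ∃ c : ℤ_[l]ˣ, (h (chi σ) : PadicAlgCl l) =
        algebraMap ℚ_[l] (PadicAlgCl l) ((c : ℤ_[l]) : ℚ_[l]) ∧ c ^ 2 = chi σ :=
    fun σ hσ => hN (chi σ) hσ
  let c : GQ l → ℤ_[l]ˣ := fun σ =>
    if hσ : ‖(chi σ : ℤ_[l]) - 1‖ ≤ (l : ℝ) ^ (-(N : ℤ)) then (hsq σ hσ).choose else 1
  have hc1 : ∀ σ : GQ l, ‖(chi σ : ℤ_[l]) - 1‖ ≤ (l : ℝ) ^ (-(N : ℤ)) →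
      (h (chi σ) : PadicAlgCl l) = algebraMap ℚ_[l] (PadicAlgCl l) ((c σ : ℤ_[l]) : ℚ_[l]) ∧
        c σ ^ 2 = chi σ := by
    intro σ hσ
    simp only [c, dif_pos hσ]
    exact (hsq σ hσ).choose_spec
  obtain ⟨E, hE, hEσ⟩ := exists_finite_ext ι N
  -- the action on the coordinate
  have hact : ∀ σ ∈ (E.fixingSubgroup : Set (GQ l)), bdRMap (actO σ) (coords x i) =
      zpToBdR l 𝓞_ℂ_[l] ((c σ : ℤ_[l])) * coords x i := by
    intro σ hσ
    obtain ⟨hσ1, hσ2⟩ := hEσ σ hσ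
    obtain ⟨τ, hτ⟩ := exists_restriction ι σ hσ1
    obtain ⟨hc2, hc3⟩ := hc1 σ hσ2
    have hfix := hx σ τ hτ
    set q : ℚ_[l] := ((((c σ)⁻¹ : ℤ_[l]ˣ) : ℤ_[l]) : ℚ_[l]) with hq
    have hqc : ((c σ : ℤ_[l]) : ℚ_[l]) * q = 1 := by
      rw [hq, ← PadicInt.coe_mul, Units.mul_inv, PadicInt.coe_one]
    have hs : (((h (chi σ))⁻¹ : (PadicAlgCl l)ˣ) : PadicAlgCl l) =
        algebraMap ℚ_[l] (PadicAlgCl l) q := by
      rw [Units.val_inv_eq_inv_val, hc2]
      apply inv_eq_of_mul_eq_one_right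
      rw [← map_mul, hqc, map_one]
    have hvec : ∀ v, vecMap ρ τ v = q • v := by
      intro v
      have hr := hρ τ
      rw [chi_restriction ι σ τ hτ, hs] at hr
      change (ρ τ : Matrix (Fin 1) (Fin 1) (PadicAlgCl l)).mulVec v = _
      rw [hr, Matrix.scalar_apply, ← Matrix.smul_one_eq_diagonal, Matrix.smul_mulVec,
        Matrix.one_mulVec, algebraMap_smul]
    have h5 := coords_map (bdRAct l (actO σ)).toLinearMap q (vecMap ρ τ) hvec x i
    have h6 : coords (bdRTensor ρ σ τ x) i = coords x i := by rw [hfix]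
    have h7 : coords x i = q • bdRMap (actO σ) (coords x i) := h6.symm.trans h5
    have h8 : zpToBdR l 𝓞_ℂ_[l] (c σ : ℤ_[l]) =
        algebraMap ℚ_[l] (BDeRham 𝓞_ℂ_[l] l) ((c σ : ℤ_[l]) : ℚ_[l]) :=
      (algebraMap_bdR l 𝓞_ℂ_[l] (c σ : ℤ_[l])).symm
    conv_rhs => rw [h7]
    rw [h8, Algebra.smul_def, ← mul_assoc, ← map_mul, hqc, map_one, one_mul]
  obtain ⟨z, j, hz0, hz⟩ := exists_of_bdR (E.fixingSubgroup : Set (GQ l))
    (fun σ => (c σ : ℤ_[l])) (coords x i) hi hact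
  have hz2 : z ^ 2 = 0 := by
    refine Run7.h902.tate E (2 * j + 1) (by omega) (z ^ 2) fun σ hσ => ?_
    obtain ⟨-, hσ2⟩ := hEσ σ hσ
    obtain ⟨-, hc3⟩ := hc1 σ hσ2
    have hchi0 : zC (chi σ : ℤ_[l]) ≠ 0 := by
      intro h0
      have h1 := norm_zC (chi σ : ℤ_[l])
      rw [h0, norm_zero, PadicInt.norm_units] at h1
      exact zero_ne_one h1
    have h9 : zC (c σ : ℤ_[l]) ^ 2 = zC (chi σ : ℤ_[l]) := by
      rw [← map_pow, ← hc3, Units.val_pow_eq_pow_val]
    rw [map_pow, hz σ hσ, mul_pow, mul_pow, h9, zpow_add₀ hchi0, zpow_one, mul_comm 2 j, zpow_mul]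
    norm_cast
    ring
  exact hz0 (pow_eq_zero_iff (two_ne_zero) |>.1 hz2)

/-- The second condition does not imply the first one. -/
theorem main (l : ℕ) [Fact l.Prime] (F : Type) [Field F] [NumberField F] :
    ∃ ρ : Rep F l 1, Continuous ρ ∧ ρ.toRepresentation.IsIrreducible ∧ UnramifiedAE ρ ∧
      CondTwo ρ ∧ ¬ CondOne ρ := by
  obtain ⟨h, hc, ⟨M, hM, hh⟩, N, hN⟩ := Run7.h658.FM.exists_sqrt (p := l)
  obtain ⟨ρ, h1, h2, h3, h4, hρ⟩ := Run7.h658.FM.exists_rho F h hc M hM hh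
  refine ⟨ρ, h1, h2, h3, h4, fun hone => ?_⟩
  obtain ⟨ι⟩ := exists_embedding F l
  exact not_deRham h N hN ρ hρ ι (hone ι).1

end Run7.h547
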