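import Mathlib

/-!
# Representations of the absolute Galois group of a number field: places away from `l`
-/

set_option autoImplicit false

noncomputable section

open NumberField Polynomial

namespace Run7.h547

variable (F : Type) [Field F] (l : ℕ) [Fact l.Prime] (n : ℕ)

/-- The absolute Galois group of `F`. -/
abbrev GF : Type := Gal(AlgebraicClosure F/F)

/-- The ring of all algebraic integers in the algebraic closure of `F`. -/
abbrev Zbar : Type := 𝓞 (AlgebraicClosure F)

/-- `n`-dimensional representations of the absolute Galois group of `F` over `ℚ_l`-bar. -/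
abbrev Rep : Type := GF F →* GL (Fin n) (PadicAlgCl l)

variable {F l n}

/-- the underlying representation on `(ℚ_l-bar)^n` -/
def Rep.toRepresentation (ρ : Rep F l n) :
    Representation (PadicAlgCl l) (GF F) (Fin n → PadicAlgCl l) where
  toFun τ := Matrix.mulVecLin (ρ τ : Matrix (Fin n) (Fin n) (PadicAlgCl l))
  map_one' := by simp [Module.End.one_eq_id]
  map_mul' σ τ := by rw [map_mul, Units.val_mul, Matrix.mulVecLin_mul]; rfl

/-- `ρ` is unramified at the prime ideal `P` of the ring of all algebraic integers. -/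
def UnramifiedAt (ρ : Rep F l n) (P : Ideal (Zbar F)) : Prop :=
  ∀ τ ∈ P.inertia (GF F), ρ τ = 1

/-- `ρ` is unramified at all but finitely many places of `F`. -/
def UnramifiedAE (ρ : Rep F l n) : Prop :=
  {v : IsDedekindDomain.HeightOneSpectrum (𝓞 F) | ∃ P : Ideal (Zbar F), P.IsMaximal ∧
    P.under (𝓞 F) = v.asIdeal ∧ ¬ UnramifiedAt ρ P}.Finite

/-- The number of elements of the residue field of `F` at `P`. -/
def resCard (P : Ideal (Zbar F)) : ℕ := Nat.card (𝓞 F ⧸ P.under (𝓞 F))

/-- `τ` is a geometric Frobenius element at `P`: its inverse induces the `q`-th power map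
modulo `P`, where `q` is the number of elements of the residue field of `F` at `P`. -/
def IsGeomFrob (P : Ideal (Zbar F)) (τ : GF F) : Prop :=
  ∀ x : Zbar F, τ⁻¹ • x - x ^ resCard P ∈ P

/-- The Weil group at `P`: the subgroup generated by the geometric Frobenius elements and by
the inertia group. -/
def weil (P : Ideal (Zbar F)) : Subgroup (GF F) :=
  Subgroup.closure ({τ | IsGeomFrob P τ} ∪ (P.inertia (GF F) : Set (GF F)))

lemma frob_mem {P : Ideal (Zbar F)} {τ : GF F} (h : IsGeomFrob P τ) : τ ∈ weil P :=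
  Subgroup.subset_closure (Or.inl h)

lemma inertia_mem {P : Ideal (Zbar F)} {τ : GF F} (h : τ ∈ P.inertia (GF F)) : τ ∈ weil P :=
  Subgroup.subset_closure (Or.inr h)

/-- `(r, N)` is the Weil-Deligne representation attached to `ρ` at `P` (with respect to the
geometric Frobenius element `Φ` and the homomorphism `t` from the inertia group to `ℚ_l`):
`N` is nilpotent, `r` is trivial on an open subgroup of the inertia group and
`ρ(Φ^m i) = r(Φ^m i) exp(t(i) N)` for all integers `m` and all `i` in the inertia group. -/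
structure IsWeilDeligne (ρ : Rep F l n) (P : Ideal (Zbar F)) (Φ : GF F) (hΦ : IsGeomFrob P Φ)
    (t : P.inertia (GF F) →* Multiplicative ℚ_[l]) (r : weil P →* GL (Fin n) (PadicAlgCl l))
    (N : Matrix (Fin n) (Fin n) (PadicAlgCl l)) : Prop where
  nilpotent : IsNilpotent N
  smooth : ∃ U : Subgroup (GF F), IsOpen (U : Set (GF F)) ∧
    ∀ (τ : GF F) (h : τ ∈ P.inertia (GF F)), τ ∈ U → r ⟨τ, inertia_mem h⟩ = 1
  eq : ∀ (m : ℤ) (i : P.inertia (GF F)),
    (ρ (Φ ^ m * i) : Matrix (Fin n) (Fin n) (PadicAlgCl l)) =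
      r (⟨Φ, frob_mem hΦ⟩ ^ m * ⟨i.1, inertia_mem i.2⟩) *
        IsNilpotent.exp ((t i).toAdd • N)

/-- `M` is the monodromy filtration of the nilpotent matrix `N`. -/
structure IsMonodromyFiltration (N : Matrix (Fin n) (Fin n) (PadicAlgCl l))
    (M : ℤ → Submodule (PadicAlgCl l) (Fin n → PadicAlgCl l)) : Prop where
  mono : Monotone M
  bot : ∃ j, M j = ⊥
  top : ∃ j, M j = ⊤
  shift : ∀ j, ∀ x ∈ M j, N.mulVec x ∈ M (j - 2)
  inj : ∀ j : ℕ, ∀ x ∈ M j, (N ^ j).mulVec x ∈ M (-j - 1) → x ∈ M (j - 1)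
  surj : ∀ j : ℕ, ∀ y ∈ M (-j), ∃ x ∈ M j, (N ^ j).mulVec x - y ∈ M (-j - 1)

/-- `α` is an algebraic number all of whose complex conjugates have absolute value `q^(k/2)`. -/
def IsWeilNumber (q : ℕ) (k : ℤ) (α : PadicAlgCl l) : Prop :=
  IsAlgebraic ℚ α ∧ ∀ z : ℂ, aeval z (minpoly ℚ α) = 0 → ‖z‖ = (q : ℝ) ^ ((k : ℝ) / 2)

/-- `r` is integral: the eigenvalues of geometric Frobenius elements are algebraic integers. -/
def IsIntegralAt (P : Ideal (Zbar F)) (r : weil P →* GL (Fin n) (PadicAlgCl l)) : Prop :=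
  ∀ (τ : GF F) (h : IsGeomFrob P τ) (α : PadicAlgCl l),
    ((r ⟨τ, frob_mem h⟩ : Matrix (Fin n) (Fin n) (PadicAlgCl l)).charpoly).IsRoot α → IsIntegral ℤ α

/-- `(r, N)` is pure of weight `w`: the eigenvalues of geometric Frobenius elements on the `j`-th
graded piece of the monodromy filtration of `N` have weight `w + j`. -/
def IsPureAt (P : Ideal (Zbar F)) (r : weil P →* GL (Fin n) (PadicAlgCl l))
    (N : Matrix (Fin n) (Fin n) (PadicAlgCl l)) (w : ℤ) : Prop :=
  ∃ M : ℤ → Submodule (PadicAlgCl l) (Fin n → PadicAlgCl l), IsMonodromyFiltration N M ∧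
    ∀ (τ : GF F) (h : IsGeomFrob P τ) (j : ℤ) (x : Fin n → PadicAlgCl l) (α : PadicAlgCl l),
      x ∈ M j → x ∉ M (j - 1) →
      (r ⟨τ, frob_mem h⟩ : Matrix (Fin n) (Fin n) (PadicAlgCl l)).mulVec x - α • x ∈ M (j - 1) →
      IsWeilNumber (resCard P) (w + j) α

/-- The second condition: there is an integer `w` such that at every finite place not above `l`
the Weil-Deligne representation attached to `ρ` is integral and pure of weight `w`. -/
def CondTwo (ρ : Rep F l n) : Prop :=
  ∃ w : ℤ, ∀ P : Ideal (Zbar F), P.IsMaximal → (l : Zbar F) ∉ P →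
    ∀ (Φ : GF F) (hΦ : IsGeomFrob P Φ) (t : P.inertia (GF F) →* Multiplicative ℚ_[l]),
      Continuous t → t ≠ 1 →
      ∃ (r : weil P →* GL (Fin n) (PadicAlgCl l)) (N : Matrix (Fin n) (Fin n) (PadicAlgCl l)),
        IsWeilDeligne ρ P Φ hΦ t r N ∧ IsIntegralAt P r ∧ IsPureAt P r N w

end Run7.h547
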