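import Mathlib

/-!
# The action of the Galois group of `ℚ_p` on `ℂ_p`
-/

set_option autoImplicit false

noncomputable section

namespace Run7.h547

variable (p : ℕ) [Fact p.Prime]

/-- The absolute Galois group of `ℚ_p`. -/
abbrev GQ : Type := Gal(PadicAlgCl p/ℚ_[p])

variable {p}

lemma norm_gal (σ : GQ p) (x : PadicAlgCl p) : ‖σ x‖ = ‖x‖ :=
  (spectralNorm_eq_of_equiv (K := ℚ_[p]) σ x).symm

lemma continuous_gal (σ : GQ p) : Continuous σ := by
  have h : Isometry σ := AddMonoidHomClass.isometry_of_norm σ (norm_gal σ)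
  exact h.continuous

/-- The action of an element of the Galois group on `ℂ_p`, by continuity. -/
def actC (σ : GQ p) : ℂ_[p] ≃+* ℂ_[p] :=
  UniformSpace.Completion.mapRingEquiv (σ : PadicAlgCl p ≃+* PadicAlgCl p) (continuous_gal σ)
    (continuous_gal σ⁻¹)

lemma actC_coe (σ : GQ p) (x : PadicAlgCl p) :
    actC σ (x : ℂ_[p]) = ((σ x : PadicAlgCl p) : ℂ_[p]) :=
  UniformSpace.Completion.mapRingHom_coe (continuous_gal σ) x

lemma continuous_actC (σ : GQ p) : Continuous (actC σ) :=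
  UniformSpace.Completion.continuous_map

lemma actC_mul (σ τ : GQ p) (x : ℂ_[p]) : actC (σ * τ) x = actC σ (actC τ x) := by
  induction x using UniformSpace.Completion.induction_on with
  | hp => exact isClosed_eq (continuous_actC _) ((continuous_actC _).comp (continuous_actC _))
  | ih a => simp only [actC_coe]; rfl

lemma actC_one (x : ℂ_[p]) : actC (1 : GQ p) x = x := by
  induction x using UniformSpace.Completion.induction_on with
  | hp => exact isClosed_eq (continuous_actC _) continuous_id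
  | ih a => simp only [actC_coe]; rfl

lemma norm_actC (σ : GQ p) (x : ℂ_[p]) : ‖actC σ x‖ = ‖x‖ := by
  induction x using UniformSpace.Completion.induction_on with
  | hp => exact isClosed_eq (continuous_norm.comp (continuous_actC _)) continuous_norm
  | ih a => simp only [actC_coe, PadicComplex.norm_extends, norm_gal]

lemma actC_algebraMap (σ : GQ p) (x : ℚ_[p]) :
    actC σ (algebraMap ℚ_[p] ℂ_[p] x) = algebraMap ℚ_[p] ℂ_[p] x := by
  rw [IsScalarTower.algebraMap_apply ℚ_[p] (PadicAlgCl p) ℂ_[p]]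
  change actC σ ((algebraMap ℚ_[p] (PadicAlgCl p) x : PadicAlgCl p) : ℂ_[p]) = _
  rw [actC_coe, σ.commutes]
  rfl

open Valuation MonoidWithZeroHom.ValueGroup₀ in
lemma v_eq (x : ℂ_[p]) : ((Valued.v x : NNReal) : ℝ) = ‖x‖ := by
  rw [PadicComplex.norm_eq_norm]
  simp only [Valued.v.norm_def, PadicComplex.RankOne.hom_eq_embedding]
  rw [embedding_restrict (PadicComplex.valued p).v x]

lemma mem_int_iff (x : ℂ_[p]) : x ∈ PadicComplexInt p ↔ ‖x‖ ≤ 1 := by
  rw [← v_eq]
  change Valued.v x ≤ 1 ↔ _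
  exact (NNReal.coe_le_one).symm

lemma norm_int (x : 𝓞_ℂ_[p]) : ‖(x : ℂ_[p])‖ ≤ 1 := (mem_int_iff _).1 x.2

/-- The action of the Galois group on the ring of integers of `ℂ_p`. -/
def actO (σ : GQ p) : 𝓞_ℂ_[p] ≃+* 𝓞_ℂ_[p] where
  toFun x := ⟨actC σ x, by rw [mem_int_iff, norm_actC]; exact norm_int x⟩
  invFun x := ⟨actC σ⁻¹ x, by rw [mem_int_iff, norm_actC]; exact norm_int x⟩
  left_inv x := by
    ext
    change actC σ⁻¹ (actC σ x) = x
    rw [← actC_mul, inv_mul_cancel, actC_one]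
  right_inv x := by
    ext
    change actC σ (actC σ⁻¹ x) = x
    rw [← actC_mul, mul_inv_cancel, actC_one]
  map_mul' x y := by ext; exact map_mul (actC σ) _ _
  map_add' x y := by ext; exact map_add (actC σ) _ _

lemma coe_actO (σ : GQ p) (x : 𝓞_ℂ_[p]) : ((actO σ x : 𝓞_ℂ_[p]) : ℂ_[p]) = actC σ x := rfl

/-- The cyclotomic character of the absolute Galois group of `ℚ_p`. -/
def chi (σ : GQ p) : ℤ_[p]ˣ :=
  cyclotomicCharacter (PadicAlgCl p) p (σ : PadicAlgCl p ≃+* PadicAlgCl p)

/-- The action of the Galois group on `ℂ_p`, as an endomorphism of the `ℚ_p`-algebra `ℂ_p`. -/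
def actCAlg (σ : GQ p) : ℂ_[p] →ₐ[ℚ_[p]] ℂ_[p] :=
  { (actC σ : ℂ_[p] →+* ℂ_[p]) with commutes' := actC_algebraMap σ }

end Run7.h547
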