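import Pool.Agent.Run7.h547.FM.Ainf

/-!
# The action of the Galois group on `ω`
-/

set_option autoImplicit false

noncomputable section

open Ideal WittVector

namespace Run7.h547

variable {p : ℕ} [Fact p.Prime]

/-- the embedding of `ℤ_p` in `ℂ_p` -/
def zC : ℤ_[p] →+* ℂ_[p] := (algebraMap ℚ_[p] ℂ_[p]).comp (PadicInt.Coe.ringHom (p := p))

lemma norm_zC (x : ℤ_[p]) : ‖zC x‖ = ‖x‖ := by
  have h := norm_algebraMap' ℂ_[p] (x : ℚ_[p])
  rw [PadicInt.norm_def, ← h]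
  rfl

lemma actC_zC (σ : GQ p) (x : ℤ_[p]) : actC σ (zC x) = zC x := actC_algebraMap σ _

lemma norm_inv_zt (n : ℕ) : ‖(zt p n)⁻¹‖ ≤ 1 := by rw [norm_inv, norm_zt, inv_one]

variable (p) in
/-- inverses of roots of unity in the ring of integers of `ℂ_p` -/
def zI (n : ℕ) : 𝓞_ℂ_[p] := toO (zt p n)⁻¹ (norm_inv_zt n)

lemma zO_mul_zI (n : ℕ) : zO p n * zI p n = 1 := by
  apply Subtype.ext
  change ((zt p n : PadicAlgCl p) : ℂ_[p]) * (((zt p n)⁻¹ : PadicAlgCl p) : ℂ_[p]) = 1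
  have h0 : zt p n ≠ 0 := by
    rw [← norm_pos_iff, norm_zt]; exact one_pos
  have := map_mul (algebraMap (PadicAlgCl p) ℂ_[p]) (zt p n) (zt p n)⁻¹
  rw [mul_inv_cancel₀ h0, map_one] at this
  exact this.symm

lemma zI_succ (n : ℕ) : zI p (n + 1) ^ p = zI p n := by
  have h1 : zO p n * zI p (n + 1) ^ p = 1 := by
    rw [← zO_succ, ← mul_pow, zO_mul_zI, one_pow]
  calc zI p (n + 1) ^ p = (zO p n * zI p n) * zI p (n + 1) ^ p := by rw [zO_mul_zI, one_mul]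
    _ = (zO p n * zI p (n + 1) ^ p) * zI p n := by ring
    _ = zI p n := by rw [h1, one_mul]

lemma zO_pow (m n : ℕ) : zO p (m + n) ^ p ^ n = zO p m := by
  induction n with
  | zero => simp
  | succ n ih => rw [pow_succ', pow_mul, ← add_assoc, zO_succ, ih]

lemma zI_pow (m n : ℕ) : zI p (m + n) ^ p ^ n = zI p m := by
  induction n with
  | zero => simp
  | succ n ih => rw [pow_succ', pow_mul, ← add_assoc, zI_succ, ih]

/-- the element `ε^((χ(σ) - n) / p^k)` of the tilt -/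
def del (σ : GQ p) (k n : ℕ) : Perfection 𝓞_ℂ_[p] p :=
  ⟨fun m => actO σ (zO p (m + k)) * zI p (m + k) ^ n, fun m => by
    rw [mul_pow, ← map_pow, ← pow_mul, mul_comm n p, pow_mul, show m + 1 + k = m + k + 1 by ring,
      zO_succ, zI_succ]⟩

lemma tiltMap_tiltEquiv (φ : 𝓞_ℂ_[p] ≃+* 𝓞_ℂ_[p]) (x : Perfection 𝓞_ℂ_[p] p) :
    tiltMap φ (tiltEquiv x) =
      tiltEquiv ⟨fun n => φ (x.1 n), fun n => by rw [← map_pow, x.2 n]⟩ := rfl

lemma tiltMap_eps (σ : GQ p) (k n : ℕ) :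
    tiltMap (actO σ) (eps p) = eps p ^ n * tiltEquiv (del σ k n) ^ p ^ k := by
  rw [eps, tiltMap_tiltEquiv, ← map_pow, ← map_pow, ← map_mul]
  congr 1
  apply Subtype.ext
  funext m
  change actO σ (zO p m) = zO p m ^ n * (actO σ (zO p (m + k)) * zI p (m + k) ^ n) ^ p ^ k
  rw [mul_pow, ← map_pow, ← pow_mul, mul_comm n (p ^ k), pow_mul, zO_pow, zI_pow]
  calc actO σ (zO p m) = (zO p m * zI p m) ^ n * actO σ (zO p m) := by
        rw [zO_mul_zI, one_pow, one_mul]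
    _ = _ := by rw [mul_pow]; ring

/-- the natural number congruent to `χ(σ)` modulo `p^k` -/
def chiN (σ : GQ p) (k : ℕ) : ℕ := (PadicInt.toZModPow k (chi σ : ℤ_[p])).val

lemma gal_zt (σ : GQ p) (k : ℕ) : σ (zt p k) = zt p k ^ chiN σ k :=
  cyclotomicCharacter.spec (L := PadicAlgCl p) p (σ : PadicAlgCl p ≃+* PadicAlgCl p) (zt p k)
    (zt_prim k).pow_eq_one

lemma actO_zO (σ : GQ p) (k : ℕ) : actO σ (zO p k) = zO p k ^ chiN σ k := by
  apply Subtype.ext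
  change actC σ ((zt p k : PadicAlgCl p) : ℂ_[p]) = _
  rw [actC_coe, gal_zt]
  have h1 := map_pow (algebraMap 𝓞_ℂ_[p] ℂ_[p]) (zO p k) (chiN σ k)
  have h2 := map_pow (algebraMap (PadicAlgCl p) ℂ_[p]) (zt p k) (chiN σ k)
  exact h2.trans h1.symm

lemma untilt_del (σ : GQ p) (k : ℕ) : (tiltEquiv (del σ k (chiN σ k))).untilt = 1 := by
  rw [untilt_tiltEquiv]
  change actO σ (zO p (0 + k)) * zI p (0 + k) ^ chiN σ k = 1
  rw [zero_add, actO_zO, ← mul_pow, zO_mul_zI, one_pow]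

lemma norm_chi_sub (σ : GQ p) (k : ℕ) : ‖(chi σ : ℤ_[p]) - (chiN σ k : ℤ_[p])‖ ≤ ((p : ℝ)⁻¹) ^ k := by
  have h : (chi σ : ℤ_[p]) - (chiN σ k : ℤ_[p]) ∈ RingHom.ker (PadicInt.toZModPow (p := p) k) := by
    rw [RingHom.mem_ker, map_sub, map_natCast, sub_eq_zero]
    have : NeZero (p ^ k) := ⟨pow_ne_zero _ (Fact.out : p.Prime).ne_zero⟩
    exact (ZMod.natCast_zmod_val _).symm
  rw [PadicInt.ker_toZModPow, ← PadicInt.norm_le_pow_iff_mem_span_pow] at h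
  rwa [inv_pow, ← zpow_natCast, ← zpow_neg]

lemma eps_sub_one : teichmuller p (eps p) - 1 = om p * (teichmuller p (eps1 p) - 1) := by
  rw [om, geom_sum_mul, ← map_pow, eps1_pow]

theorem kappa_aux (σ : GQ p) (c : Ainf 𝓞_ℂ_[p] p) (hc : ainfMap (actO σ) (om p) = c * om p)
    (k : ℕ) : ∃ e : 𝓞_ℂ_[p], fontaineTheta 𝓞_ℂ_[p] p c * actO σ (zO p 1 - 1) =
      (zO p 1 - 1) * (chiN σ k : 𝓞_ℂ_[p]) + e * ((p : ℕ) : 𝓞_ℂ_[p]) ^ k := by
  set n := chiN σ k with hn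
  set E := teichmuller p (eps p) with hE
  set E1 := teichmuller p (eps1 p) with hE1
  set D := teichmuller p (tiltEquiv (del σ k n)) with hD
  have hD1 : fontaineTheta 𝓞_ℂ_[p] p (D - 1) = 0 := by
    rw [map_sub, map_one, hD, fontaineTheta_teichmuller, hn, untilt_del, sub_self]
  obtain ⟨e, he⟩ := om_dvd (D - 1) hD1
  refine ⟨fontaineTheta 𝓞_ℂ_[p] p e, ?_⟩
  have h1 : ainfMap (actO σ) E = E ^ n * D ^ p ^ k := by
    rw [hE, ainfMap_teichmuller, tiltMap_eps σ k n, map_mul, map_pow, map_pow]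
  have h2 : ainfMap (actO σ) (E - 1) = om p * (c * ainfMap (actO σ) (E1 - 1)) := by
    rw [hE, eps_sub_one, map_mul, hc]
    ring
  have h3 : ainfMap (actO σ) (E - 1) = om p * ((E1 - 1) * (∑ i ∈ Finset.range n, E ^ i) *
      D ^ p ^ k + e * ∑ i ∈ Finset.range (p ^ k), D ^ i) := by
    rw [map_sub, map_one, h1]
    have h4 : E ^ n - 1 = om p * (E1 - 1) * ∑ i ∈ Finset.range n, E ^ i := by
      rw [← mul_geom_sum, hE, eps_sub_one]
    have h5 : D ^ p ^ k - 1 = om p * e * ∑ i ∈ Finset.range (p ^ k), D ^ i := by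
      rw [← mul_geom_sum, he]
    calc E ^ n * D ^ p ^ k - 1 = (E ^ n - 1) * D ^ p ^ k + (D ^ p ^ k - 1) := by ring
      _ = _ := by rw [h4, h5]; ring
  have h6 := mul_left_cancel₀ om_ne_zero (h2.symm.trans h3)
  have h7 := congrArg (fontaineTheta 𝓞_ℂ_[p] p) h6
  have hD' : fontaineTheta 𝓞_ℂ_[p] p D = 1 := by
    rw [map_sub, map_one, sub_eq_zero] at hD1
    exact hD1
  have hE' : fontaineTheta 𝓞_ℂ_[p] p E = 1 := by
    rw [hE, fontaineTheta_teichmuller, untilt_eps]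
  have hE1' : fontaineTheta 𝓞_ℂ_[p] p (E1 - 1) = zO p 1 - 1 := by
    rw [map_sub, map_one, hE1, fontaineTheta_teichmuller, untilt_eps1]
  rw [map_mul, theta_ainfMap, hE1'] at h7
  rw [h7]
  simp only [map_add, map_mul, map_sum, map_pow, hD', hE', one_pow, hE1', Finset.sum_const,
    Finset.card_range, nsmul_eq_mul, mul_one]
  push_cast
  ring

/-- `θ(σ(ω)/ω) σ(ζ - 1) = χ(σ) (ζ - 1)` for a primitive `p`-th root of unity `ζ`. -/
theorem kappa (σ : GQ p) (c : Ainf 𝓞_ℂ_[p] p) (hc : ainfMap (actO σ) (om p) = c * om p) :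
    (fontaineTheta 𝓞_ℂ_[p] p c : ℂ_[p]) * actC σ ((zO p 1 : 𝓞_ℂ_[p]) - 1) =
      zC (chi σ : ℤ_[p]) * (((zO p 1 : 𝓞_ℂ_[p]) : ℂ_[p]) - 1) := by
  rw [← sub_eq_zero, ← norm_eq_zero]
  refine le_antisymm ?_ (norm_nonneg _)
  refine ge_of_tendsto' (tendsto_pow_atTop_nhds_zero_of_lt_one p_inv_pos.le
    (p_inv_lt_one (p := p))) fun k => ?_
  obtain ⟨e, he⟩ := kappa_aux σ c hc k
  have h1 : (fontaineTheta 𝓞_ℂ_[p] p c : ℂ_[p]) * actC σ ((zO p 1 : 𝓞_ℂ_[p]) - 1) =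
      (((zO p 1 : 𝓞_ℂ_[p]) : ℂ_[p]) - 1) * (chiN σ k : ℂ_[p]) + e * (p : ℂ_[p]) ^ k := by
    have := congrArg (algebraMap 𝓞_ℂ_[p] ℂ_[p]) he
    simp only [map_add, map_mul, map_pow, map_natCast, map_sub, map_one] at this
    rw [map_sub, map_one]
    exact this
  rw [h1]
  have h2 : (((zO p 1 : 𝓞_ℂ_[p]) : ℂ_[p]) - 1) * (chiN σ k : ℂ_[p]) + e * (p : ℂ_[p]) ^ k -
      zC (chi σ : ℤ_[p]) * (((zO p 1 : 𝓞_ℂ_[p]) : ℂ_[p]) - 1) =
      e * (p : ℂ_[p]) ^ k - zC ((chi σ : ℤ_[p]) - (chiN σ k : ℤ_[p])) *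
        (((zO p 1 - 1 : 𝓞_ℂ_[p]) : ℂ_[p])) := by
    rw [map_sub, map_natCast]
    have : ((zO p 1 - 1 : 𝓞_ℂ_[p]) : ℂ_[p]) = ((zO p 1 : 𝓞_ℂ_[p]) : ℂ_[p]) - 1 := rfl
    rw [this]
    ring
  rw [h2]
  refine (norm_sub_le_max' _ _).trans (max_le ?_ ?_)
  · rw [norm_mul, norm_pow, norm_pC]
    exact mul_le_of_le_one_left (pow_nonneg p_inv_pos.le _) (norm_int e)
  · rw [norm_mul, norm_zC]
    exact (mul_le_of_le_one_right (norm_nonneg _) (norm_int _)).trans (norm_chi_sub σ k)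

end Run7.h547
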