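import Pool.Agent.Run7.h547.FM.Gal

/-!
# The ring of integers of `ℂ_p` is `p`-adically complete
-/

set_option autoImplicit false

noncomputable section

open Ideal

namespace Run7.h547

variable {p : ℕ} [Fact p.Prime]

omit [Fact p.Prime] in
lemma norm_sub_le_max' {S : Type*} [SeminormedAddCommGroup S] [IsUltrametricDist S] (x y : S) :
    ‖x - y‖ ≤ max ‖x‖ ‖y‖ := by
  have := IsUltrametricDist.norm_add_le_max x (-y)
  rwa [norm_neg, ← sub_eq_add_neg] at this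

lemma norm_pC : ‖(p : ℂ_[p])‖ = (p : ℝ)⁻¹ := by
  have h := PadicComplex.norm_extends' (p := p) (p : ℚ_[p])
  rw [Padic.norm_p] at h
  rw [← h]
  congr 1
  exact (map_natCast (algebraMap ℚ_[p] ℂ_[p]) p).symm

lemma p_ne_zero_C : (p : ℂ_[p]) ≠ 0 := by
  rw [← norm_pos_iff, norm_pC]
  have := (Fact.out : p.Prime).pos
  positivity

lemma dvd_iff (x y : 𝓞_ℂ_[p]) (hy : (y : ℂ_[p]) ≠ 0) : y ∣ x ↔ ‖(x : ℂ_[p])‖ ≤ ‖(y : ℂ_[p])‖ := by
  constructor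
  · rintro ⟨z, rfl⟩
    have : ((y * z : 𝓞_ℂ_[p]) : ℂ_[p]) = (y : ℂ_[p]) * (z : ℂ_[p]) := rfl
    rw [this, norm_mul]
    exact mul_le_of_le_one_right (norm_nonneg _) (norm_int z)
  · intro h
    refine ⟨⟨(x : ℂ_[p]) / y, ?_⟩, ?_⟩
    · rw [mem_int_iff, norm_div]
      exact div_le_one_of_le₀ h (norm_nonneg _)
    · apply Subtype.ext
      change (x : ℂ_[p]) = (y : ℂ_[p]) * ((x : ℂ_[p]) / y)
      rw [mul_div_cancel₀ _ hy]

lemma coe_p : (((p : ℕ) : 𝓞_ℂ_[p]) : ℂ_[p]) = (p : ℂ_[p]) := by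
  exact map_natCast (algebraMap 𝓞_ℂ_[p] ℂ_[p]) p

lemma mem_span_pow_iff (x : 𝓞_ℂ_[p]) (n : ℕ) :
    x ∈ span {((p : ℕ) : 𝓞_ℂ_[p])} ^ n ↔ ‖(x : ℂ_[p])‖ ≤ ((p : ℝ)⁻¹) ^ n := by
  have h1 : ((((p : ℕ) : 𝓞_ℂ_[p]) ^ n : 𝓞_ℂ_[p]) : ℂ_[p]) = (p : ℂ_[p]) ^ n := by
    rw [← coe_p]
    exact map_pow (algebraMap 𝓞_ℂ_[p] ℂ_[p]) _ n
  rw [Ideal.span_singleton_pow, Ideal.mem_span_singleton, dvd_iff, h1, norm_pow, norm_pC]
  rw [h1]
  exact pow_ne_zero _ p_ne_zero_C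

lemma mem_span_iff (x : 𝓞_ℂ_[p]) :
    x ∈ span {((p : ℕ) : 𝓞_ℂ_[p])} ↔ ‖(x : ℂ_[p])‖ ≤ (p : ℝ)⁻¹ := by
  have := mem_span_pow_iff x 1
  rwa [pow_one, pow_one] at this

lemma p_inv_lt_one : ((p : ℝ)⁻¹) < 1 := by
  have := (Fact.out : p.Prime).one_lt
  rw [inv_lt_one_iff₀]
  right
  exact_mod_cast this

lemma p_inv_pos : 0 < ((p : ℝ)⁻¹) := by
  have := (Fact.out : p.Prime).pos
  positivity

instance instFactOC : Fact (¬ IsUnit (((p : ℕ)) : 𝓞_ℂ_[p])) := ⟨fun h => by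
  obtain ⟨y, hy⟩ := h.exists_right_inv
  have h1 : (((p : ℕ) : 𝓞_ℂ_[p]) : ℂ_[p]) * (y : ℂ_[p]) = 1 := congrArg Subtype.val hy
  have h2 := congrArg norm h1
  rw [norm_mul, coe_p, norm_pC, norm_one] at h2
  have h3 := norm_int y
  have h4 := p_inv_lt_one (p := p)
  have h5 := p_inv_pos (p := p)
  nlinarith⟩

instance instAdicOC : IsAdicComplete (span {((p : ℕ) : 𝓞_ℂ_[p])}) 𝓞_ℂ_[p] where
  haus' x hx := by
    apply Subtype.ext
    change (x : ℂ_[p]) = 0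
    rw [← norm_eq_zero]
    refine le_antisymm ?_ (norm_nonneg _)
    refine ge_of_tendsto' (tendsto_pow_atTop_nhds_zero_of_lt_one p_inv_pos.le
      (p_inv_lt_one (p := p))) fun n => ?_
    have := hx n
    rw [SModEq.zero, smul_eq_mul, mul_top] at this
    exact (mem_span_pow_iff x n).1 this
  prec' f hf := by
    have hf' : ∀ m n, m ≤ n → ‖(f m : ℂ_[p]) - f n‖ ≤ ((p : ℝ)⁻¹) ^ m := by
      intro m n hmn
      have := hf hmn
      rw [SModEq.sub_mem, smul_eq_mul, mul_top] at this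
      exact (mem_span_pow_iff _ m).1 this
    have hc : CauchySeq (fun n => (f n : ℂ_[p])) := by
      refine cauchySeq_of_le_tendsto_0 (fun n => ((p : ℝ)⁻¹) ^ n) (fun n m N hn hm => ?_)
        (tendsto_pow_atTop_nhds_zero_of_lt_one p_inv_pos.le (p_inv_lt_one (p := p)))
      have h1 := hf' N n hn
      have h2 := hf' N m hm
      rw [dist_eq_norm]
      calc ‖(f n : ℂ_[p]) - f m‖ = ‖((f N : ℂ_[p]) - f m) - ((f N : ℂ_[p]) - f n)‖ := by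
            congr 1; ring
        _ ≤ max ‖(f N : ℂ_[p]) - f m‖ ‖(f N : ℂ_[p]) - f n‖ := by
            exact norm_sub_le_max' _ _
        _ ≤ _ := max_le h2 h1
    obtain ⟨L, hL⟩ := cauchySeq_tendsto_of_complete hc
    have hL1 : ‖L‖ ≤ 1 := le_of_tendsto' hL.norm fun n => norm_int (f n)
    refine ⟨⟨L, (mem_int_iff L).2 hL1⟩, fun n => ?_⟩
    rw [SModEq.sub_mem, smul_eq_mul, mul_top, mem_span_pow_iff]
    change ‖(f n : ℂ_[p]) - L‖ ≤ _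
    have : Filter.Tendsto (fun m => ‖(f n : ℂ_[p]) - f m‖) Filter.atTop
        (nhds ‖(f n : ℂ_[p]) - L‖) := (tendsto_const_nhds.sub hL).norm
    exact le_of_tendsto this (Filter.eventually_atTop.2 ⟨n, fun m hm => hf' n m hm⟩)

end Run7.h547
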