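import Pool.Agent.Run7.h547.FM.GDefs
import Pool.Agent.Run7.h547.FM.OC
import Pool.Agent.Run7.h547.FM.Zp

/-!
# Representations of the absolute Galois group of a number field: places above `l`
-/

set_option autoImplicit false

noncomputable section

open TensorProduct

namespace Run7.h547

variable {F : Type} [Field F] {l : ℕ} [Fact l.Prime] {n : ℕ}

/-- An embedding `ι` of the algebraic closure of `F` in the algebraic closure of `ℚ_l` defines a
place `v` of `F` above `l` and identifies the absolute Galois group of the completion `F_v` with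
the group of the automorphisms `σ` of `ℚ_l`-bar which fix `ι(F)`; the element `τ` of the absolute
Galois group of `F` is the restriction of `σ`. -/
def IsRestriction (ι : AlgebraicClosure F →+* PadicAlgCl l) (σ : GQ l) (τ : GF F) : Prop :=
  ∀ a : AlgebraicClosure F, ι (τ a) = σ (ι a)

/-- the action of `τ` on `(ℚ_l-bar)^n` through `ρ`, as a `ℚ_l`-linear map -/
def vecMap (ρ : Rep F l n) (τ : GF F) :
    (Fin n → PadicAlgCl l) →ₗ[ℚ_[l]] (Fin n → PadicAlgCl l) :=
  (Matrix.mulVecLin (ρ τ : Matrix (Fin n) (Fin n) (PadicAlgCl l))).restrictScalars ℚ_[l]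

/-- The action of `(σ, τ)` on `B_dR ⊗ V`, where `V = (ℚ_l-bar)^n` is the space of `ρ`. -/
def bdRTensor (ρ : Rep F l n) (σ : GQ l) (τ : GF F) :
    BDeRham 𝓞_ℂ_[l] l ⊗[ℚ_[l]] (Fin n → PadicAlgCl l) →ₗ[ℚ_[l]]
      BDeRham 𝓞_ℂ_[l] l ⊗[ℚ_[l]] (Fin n → PadicAlgCl l) :=
  TensorProduct.map (bdRAct l (actO σ)).toLinearMap (vecMap ρ τ)

/-- The action of `(σ, τ)` on `ℂ_l ⊗ V`. -/
def cTensor (ρ : Rep F l n) (σ : GQ l) (τ : GF F) :
    ℂ_[l] ⊗[ℚ_[l]] (Fin n → PadicAlgCl l) →ₗ[ℚ_[l]] ℂ_[l] ⊗[ℚ_[l]] (Fin n → PadicAlgCl l) :=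
  TensorProduct.map (actCAlg σ).toLinearMap (vecMap ρ τ)

/-- The restriction of `ρ` to the decomposition group defined by `ι` is de Rham: the `B_dR`-module
`B_dR ⊗ V` is generated by its elements which are fixed by the decomposition group. -/
def IsDeRham (ρ : Rep F l n) (ι : AlgebraicClosure F →+* PadicAlgCl l) : Prop :=
  Submodule.span (BDeRham 𝓞_ℂ_[l] l)
    {x : BDeRham 𝓞_ℂ_[l] l ⊗[ℚ_[l]] (Fin n → PadicAlgCl l) |
      ∀ (σ : GQ l) (τ : GF F), IsRestriction ι σ τ → bdRTensor ρ σ τ x = x} = ⊤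

/-- `i` is a Hodge-Tate weight of the restriction of `ρ` to the decomposition group defined by
`ι`: the twist of `ℂ_l ⊗ V` by the `i`-th power of the cyclotomic character has non-zero fixed
elements. The cyclotomic character has Hodge-Tate weight `-1`. -/
def IsHodgeTateWeight (ρ : Rep F l n) (ι : AlgebraicClosure F →+* PadicAlgCl l) (i : ℤ) : Prop :=
  ∃ x : ℂ_[l] ⊗[ℚ_[l]] (Fin n → PadicAlgCl l), x ≠ 0 ∧
    ∀ (σ : GQ l) (τ : GF F), IsRestriction ι σ τ →
      (((chi σ ^ i : ℤ_[l]ˣ) : ℤ_[l]) : ℚ_[l]) • cTensor ρ σ τ x = x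

/-- The first condition: at every place above `l`, `ρ` is de Rham and all its Hodge-Tate weights
are non-negative. -/
def CondOne (ρ : Rep F l n) : Prop :=
  ∀ ι : AlgebraicClosure F →+* PadicAlgCl l, IsDeRham ρ ι ∧
    ∀ i : ℤ, IsHodgeTateWeight ρ ι i → 0 ≤ i

end Run7.h547
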