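import Pool.Agent.Run7.h547.FM.Zp
import Pool.Agent.Run7.h547.FM.OC

/-!
# Fontaine's ring `B_dR` and its automorphisms

The definitions which are used by the statement of the hand-in of MP_395897_nt: Mathlib's `B_dR`
as a `ℚ_p`-algebra, and its automorphism which is induced by an automorphism of the ring `R`.
-/

set_option autoImplicit false

noncomputable section

open Ideal

namespace H547FM

variable {R : Type*} [CommRing R] {p : ℕ} [Fact p.Prime] [Fact ¬IsUnit (p : R)]

omit [Fact p.Prime] [Fact ¬IsUnit (p : R)] in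
lemma span_le_comap (φ : R ≃+* R) :
    span {(p : R)} ≤ (span {(p : R)}).comap (φ : R →+* R) := by
  rw [Ideal.span_le, Set.singleton_subset_iff, SetLike.mem_coe, Ideal.mem_comap, map_natCast]
  exact Ideal.mem_span_singleton_self _

/-- The map induced on the Witt vectors of the tilt of `R` by an automorphism of `R`. -/
def wittHom (φ : R ≃+* R) : WittVector p (PreTilt R p) →+* WittVector p (PreTilt R p) :=
  WittVector.map (Perfection.map p (Ideal.quotientMap _ (φ : R →+* R) (span_le_comap φ)))

lemma isUnit_algebraMap (φ : R ≃+* R) :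
    IsUnit ((algebraMap _ (Localization.Away (p : WittVector p (PreTilt R p)))).comp
      (wittHom φ) (p : WittVector p (PreTilt R p))) := by
  have h : wittHom φ (p : WittVector p (PreTilt R p)) = p := map_natCast _ _
  rw [RingHom.comp_apply, h]
  exact IsLocalization.Away.algebraMap_isUnit (p : WittVector p (PreTilt R p))

/-- The map induced on `W(R♭)[1/p]`. -/
def wittLocHom (φ : R ≃+* R) : Localization.Away (p : WittVector p (PreTilt R p)) →+*
    Localization.Away (p : WittVector p (PreTilt R p)) :=
  Localization.awayLift ((algebraMap _ _).comp (wittHom φ)) _ (isUnit_algebraMap φ)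

variable [IsAdicComplete (span {(p : R)}) R]

lemma ker_le_comap (φ : R ≃+* R) : RingHom.ker (fontaineThetaInvertP R p) ≤
    (RingHom.ker (fontaineThetaInvertP R p)).comap (wittLocHom φ) :=
  Run7.h547.kerTheta_le_comap φ

/-- The map induced on `B_dR⁺`. -/
def plusHom (φ : R ≃+* R) : BDeRhamPlus R p →+* BDeRhamPlus R p :=
  Run7.h547.adicMap _ (wittLocHom φ) (ker_le_comap φ)

variable (R p) in
/-- The submonoid of `B_dR⁺` generated by the generators of the kernel of `θ`. -/
def gens : Submonoid (BDeRhamPlus R p) :=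
  Submonoid.closure (AdicCompletion.of (RingHom.ker (fontaineThetaInvertP R p)) _ ''
    {a | RingHom.ker (fontaineThetaInvertP R p) = Ideal.span {a}})

lemma gens_le_comap (φ : R ≃+* R) : gens R p ≤ (gens R p).comap (plusHom φ) :=
  Run7.h547.gens_le_comap (Run7.h547.kerTheta R p)
    (Run7.h547.locEquiv φ) (Run7.h547.kerTheta_le_comap φ) (Run7.h547.kerTheta_le_comap φ.symm)

/-- `B_dR` is a localization of `B_dR⁺`, hence a commutative ring. -/
instance instCommRing : CommRing (BDeRham R p) :=
  (inferInstance : CommRing (Localization (gens R p)))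

/-- The map induced on `B_dR`. -/
def bdRHom (φ : R ≃+* R) : BDeRham R p →+* BDeRham R p :=
  IsLocalization.map (Localization (gens R p)) (plusHom φ) (gens_le_comap (p := p) φ)
    (S := Localization (gens R p))

variable (R p) in
/-- The map from `W(R♭)[1/p]` to `B_dR`. -/
def wittLocToBdR : Localization.Away (p : WittVector p (PreTilt R p)) →+* BDeRham R p :=
  (algebraMap (BDeRhamPlus R p) (Localization (gens R p))).comp
    (algebraMap _ (AdicCompletion (RingHom.ker (fontaineThetaInvertP R p)) _))

variable (R p) in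
/-- The embedding of `ℤ_p = W(𝔽_p)` in `B_dR`. -/
def zpToBdR : ℤ_[p] →+* BDeRham R p :=
  (wittLocToBdR R p).comp ((algebraMap (WittVector p (PreTilt R p)) _).comp
    ((WittVector.map (ZMod.castHom (dvd_refl p) (PreTilt R p))).comp
      (WittVector.equiv p).symm.toRingHom))

lemma isUnit_zpToBdR (y : nonZeroDivisors ℤ_[p]) : IsUnit (zpToBdR R p y) :=
  Run7.h547.isUnit_zpToBdR p R y

/-- The `ℚ_p`-algebra `B_dR`: the embedding of `ℤ_p = W(𝔽_p)` in `B_dR` extends to `ℚ_p`. -/
instance instAlgebra : Algebra ℚ_[p] (BDeRham R p) :=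
  RingHom.toAlgebra (IsLocalization.lift (M := nonZeroDivisors ℤ_[p]) (isUnit_zpToBdR (R := R)))

lemma bdRHom_algebraMap (φ : R ≃+* R) (x : ℚ_[p]) :
    bdRHom φ (algebraMap ℚ_[p] (BDeRham R p) x) = algebraMap ℚ_[p] (BDeRham R p) x :=
  (Run7.h547.bdRAct p φ).commutes x

/-- The automorphism of the `ℚ_p`-algebra `B_dR` induced by an automorphism of `R`. -/
def bdRAlgHom (φ : R ≃+* R) : BDeRham R p →ₐ[ℚ_[p]] BDeRham R p :=
  AlgHom.mk (bdRHom φ) (bdRHom_algebraMap φ)

end H547FM
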