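import Mathlib

/-!
# Galois representations of a number field and its places away from `l`

The definitions which are used by the statement of the hand-in of MP_395897_nt: the second
condition. `F` is a number field, `l` is a prime and the representation spaces are `(ℚ_l-bar)^n`.
-/

set_option autoImplicit false

noncomputable section

open NumberField Polynomial

namespace H547FM

/-- `n`-dimensional representations of the absolute Galois group of `F` over the algebraic closure
of `ℚ_l`. -/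
abbrev Rep (F : Type) [Field F] (l : ℕ) [Fact l.Prime] (n : ℕ) : Type :=
  Gal(AlgebraicClosure F/F) →* GL (Fin n) (PadicAlgCl l)

variable {F : Type} [Field F] {l : ℕ} [Fact l.Prime] {n : ℕ}

/-- The matrix of the element `τ` of the absolute Galois group of `F`. -/
def mat (ρ : Rep F l n) (τ : Gal(AlgebraicClosure F/F)) : Matrix (Fin n) (Fin n) (PadicAlgCl l) :=
  ρ τ

/-- `ρ` is continuous. -/
def IsContinuous (ρ : Rep F l n) : Prop := Continuous ρ

/-- `ρ` is irreducible. -/
def IsIrreducible (ρ : Rep F l n) : Prop :=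
  0 < n ∧ ∀ W : Submodule (PadicAlgCl l) (Fin n → PadicAlgCl l),
    (∀ τ, ∀ x ∈ W, (mat ρ τ).mulVec x ∈ W) → W = ⊥ ∨ W = ⊤

/-- `τ` belongs to the inertia group of the prime ideal `P` of the ring of all algebraic
integers. -/
def IsInertia (P : Ideal (𝓞 (AlgebraicClosure F))) (τ : Gal(AlgebraicClosure F/F)) : Prop :=
  ∀ x : 𝓞 (AlgebraicClosure F), τ • x - x ∈ P

/-- `ρ` is unramified at all but finitely many places of `F`. -/
def UnramifiedAE (ρ : Rep F l n) : Prop :=
  {v : IsDedekindDomain.HeightOneSpectrum (𝓞 F) | ∃ P : Ideal (𝓞 (AlgebraicClosure F)),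
    P.IsMaximal ∧ P.under (𝓞 F) = v.asIdeal ∧ ∃ τ, IsInertia P τ ∧ mat ρ τ ≠ 1}.Finite

/-- The number of elements of the residue field of `F` at `P`. -/
def resCard (P : Ideal (𝓞 (AlgebraicClosure F))) : ℕ := Nat.card (𝓞 F ⧸ P.under (𝓞 F))

/-- `τ` is a geometric Frobenius element at `P`: its inverse induces the `q`-th power map
modulo `P`, where `q` is the number of elements of the residue field of `F` at `P`. -/
def IsGeomFrob (P : Ideal (𝓞 (AlgebraicClosure F))) (τ : Gal(AlgebraicClosure F/F)) : Prop :=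
  ∀ x : 𝓞 (AlgebraicClosure F), τ⁻¹ • x - x ^ resCard P ∈ P

/-- The Weil group at `P`: the subgroup generated by the geometric Frobenius elements and by
the inertia group. -/
def weil (P : Ideal (𝓞 (AlgebraicClosure F))) : Subgroup Gal(AlgebraicClosure F/F) :=
  Subgroup.closure {τ | IsGeomFrob P τ ∨ IsInertia P τ}

/-- `t` is a non-zero continuous homomorphism from the inertia group of `P` to `ℚ_l`. -/
def IsTame (P : Ideal (𝓞 (AlgebraicClosure F))) (t : Gal(AlgebraicClosure F/F) → ℚ_[l]) : Prop :=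
  (∀ σ τ, IsInertia P σ → IsInertia P τ → t (σ * τ) = t σ + t τ) ∧
    ContinuousOn t {τ | IsInertia P τ} ∧ ∃ τ, IsInertia P τ ∧ t τ ≠ 0

/-- `(r, N)` is the Weil-Deligne representation attached to `ρ` at `P` (with respect to the
geometric Frobenius element `Φ` and the homomorphism `t` from the inertia group to `ℚ_l`):
`r` is a homomorphism on the Weil group and trivial on an open subgroup of the inertia group,
`N` is nilpotent and `ρ(Φ^m τ) = r(Φ^m τ) exp(t(τ) N)` for all integers `m` and all `τ` in the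
inertia group. -/
def IsWeilDeligne (ρ : Rep F l n)
    (P : Ideal (𝓞 (AlgebraicClosure F))) (Φ : Gal(AlgebraicClosure F/F))
    (t : Gal(AlgebraicClosure F/F) → ℚ_[l])
    (r : Gal(AlgebraicClosure F/F) → GL (Fin n) (PadicAlgCl l))
    (N : Matrix (Fin n) (Fin n) (PadicAlgCl l)) : Prop :=
  (∀ σ ∈ weil P, ∀ τ ∈ weil P, r (σ * τ) = r σ * r τ) ∧
    (∃ U : Subgroup Gal(AlgebraicClosure F/F), IsOpen (U : Set Gal(AlgebraicClosure F/F)) ∧
      ∀ τ ∈ U, IsInertia P τ → r τ = 1) ∧
    IsNilpotent N ∧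
    ∀ (m : ℤ) (τ : Gal(AlgebraicClosure F/F)), IsInertia P τ →
      mat ρ (Φ ^ m * τ) = (r (Φ ^ m * τ)).val * IsNilpotent.exp (t τ • N)

/-- `M` is the monodromy filtration of the nilpotent matrix `N`. -/
def IsMonodromyFiltration (N : Matrix (Fin n) (Fin n) (PadicAlgCl l))
    (M : ℤ → Submodule (PadicAlgCl l) (Fin n → PadicAlgCl l)) : Prop :=
  Monotone M ∧ (∃ j, M j = ⊥) ∧ (∃ j, M j = ⊤) ∧ (∀ j, ∀ x ∈ M j, N.mulVec x ∈ M (j - 2)) ∧
    (∀ j : ℕ, ∀ x ∈ M j, (N ^ j).mulVec x ∈ M (-j - 1) → x ∈ M (j - 1)) ∧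
    ∀ j : ℕ, ∀ y ∈ M (-j), ∃ x ∈ M j, (N ^ j).mulVec x - y ∈ M (-j - 1)

/-- `α` is an algebraic number all of whose complex conjugates have absolute value `q^(k/2)`. -/
def IsWeilNumber (q : ℕ) (k : ℤ) (α : PadicAlgCl l) : Prop :=
  IsAlgebraic ℚ α ∧ ∀ z : ℂ, aeval z (minpoly ℚ α) = 0 → ‖z‖ = (q : ℝ) ^ ((k : ℝ) / 2)

/-- `r` is integral: the eigenvalues of geometric Frobenius elements are algebraic integers. -/
def IsIntegralAt (P : Ideal (𝓞 (AlgebraicClosure F)))
    (r : Gal(AlgebraicClosure F/F) → GL (Fin n) (PadicAlgCl l)) : Prop :=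
  ∀ τ, IsGeomFrob P τ → ∀ α, (r τ).val.charpoly.IsRoot α → IsIntegral ℤ α

/-- `(r, N)` is pure of weight `w`: the eigenvalues of geometric Frobenius elements on the `j`-th
graded piece of the monodromy filtration of `N` have weight `w + j`. -/
def IsPureAt (P : Ideal (𝓞 (AlgebraicClosure F)))
    (r : Gal(AlgebraicClosure F/F) → GL (Fin n) (PadicAlgCl l))
    (N : Matrix (Fin n) (Fin n) (PadicAlgCl l)) (w : ℤ) : Prop :=
  ∃ M, IsMonodromyFiltration N M ∧
    ∀ τ, IsGeomFrob P τ → ∀ j, ∀ x ∈ M j, x ∉ M (j - 1) → ∀ α : PadicAlgCl l,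
      (r τ).val.mulVec x - α • x ∈ M (j - 1) → IsWeilNumber (resCard P) (w + j) α

/-- The second condition: there is an integer `w` such that at every finite place not above `l`
the Weil-Deligne representation attached to `ρ` is integral and pure of weight `w`. -/
def CondTwo (ρ : Rep F l n) : Prop :=
  ∃ w : ℤ, ∀ P : Ideal (𝓞 (AlgebraicClosure F)), P.IsMaximal →
    (l : 𝓞 (AlgebraicClosure F)) ∉ P → ∀ Φ, IsGeomFrob P Φ → ∀ t, IsTame (l := l) P t →
      ∃ r N, IsWeilDeligne ρ P Φ t r N ∧ IsIntegralAt P r ∧ IsPureAt P r N w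

end H547FM
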