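import Pool.Agent.Run7.h547.FM.SpecB
import Pool.Agent.Run7.h547.FM.SpecG

/-!
# Galois representations of a number field and its places above `l`

The definitions which are used by the statement of the hand-in of MP_395897_nt: the first
condition. `F` is a number field, `l` is a prime and the representation spaces are `(ℚ_l-bar)^n`.
-/

set_option autoImplicit false

noncomputable section

open TensorProduct

namespace H547FM

section

variable {K B V I : Type} [Field K] [CommRing B] [Algebra K B] [AddCommGroup V] [Module K V]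

/-- `x` is fixed by the maps `a i ⊗ g i` of `B ⊗ V`. -/
def IsFixed (a : I → B →ₐ[K] B) (g : I → V →ₗ[K] V) (x : B ⊗[K] V) : Prop :=
  ∀ i, TensorProduct.map (a i).toLinearMap (g i) x = x

/-- The `B`-module `B ⊗ V` is generated by its elements which are fixed by the maps
`a i ⊗ g i`. -/
def IsAdmissible (a : I → B →ₐ[K] B) (g : I → V →ₗ[K] V) : Prop :=
  Submodule.span B {x | IsFixed a g x} = ⊤

/-- `B ⊗ V` has a non-zero element which is fixed by the maps `a i ⊗ g i`. -/
def HasFixed (a : I → B →ₐ[K] B) (g : I → V →ₗ[K] V) : Prop :=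
  ∃ x, x ≠ 0 ∧ IsFixed a g x

/-- The map `x ↦ A x` as a `K`-linear map. -/
def linMap {n : ℕ} (A : Matrix (Fin n) (Fin n) B) : (Fin n → B) →ₗ[K] (Fin n → B) :=
  (Matrix.mulVecLin A).restrictScalars K

lemma restrict_comp (A : ValuationSubring K) (f g : K →+* K) (hf : ∀ x ∈ A, f x ∈ A)
    (hg : ∀ x ∈ A, g x ∈ A) (h : ∀ x, f (g x) = x) :
    (RingHom.restrict f A A hf).comp (RingHom.restrict g A A hg) = RingHom.id A := by
  ext x
  exact h x

/-- The automorphism of a valuation ring `A` induced by an automorphism of its field. -/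
def restrictEquiv (A : ValuationSubring K) (f g : K →+* K) (hf : ∀ x ∈ A, f x ∈ A)
    (hg : ∀ x ∈ A, g x ∈ A) (hfg : ∀ x, f (g x) = x) (hgf : ∀ x, g (f x) = x) : A ≃+* A :=
  RingEquiv.ofRingHom (RingHom.restrict f A A hf) (RingHom.restrict g A A hg)
    (restrict_comp A f g hf hg hfg) (restrict_comp A g f hg hf hgf)

end

variable {l : ℕ} [Fact l.Prime]

lemma continuous_gal (σ : Gal(PadicAlgCl l/ℚ_[l])) :
    Continuous (σ : PadicAlgCl l →+* PadicAlgCl l) :=
  Run7.h547.continuous_gal σ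

/-- The action of an element of the Galois group on `ℂ_l`, by continuity. -/
def actC (σ : Gal(PadicAlgCl l/ℚ_[l])) : ℂ_[l] →+* ℂ_[l] :=
  UniformSpace.Completion.mapRingHom (σ : PadicAlgCl l →+* PadicAlgCl l) (continuous_gal σ)

lemma actC_algebraMap (σ : Gal(PadicAlgCl l/ℚ_[l])) (x : ℚ_[l]) :
    actC σ (algebraMap ℚ_[l] ℂ_[l] x) = algebraMap ℚ_[l] ℂ_[l] x :=
  Run7.h547.actC_algebraMap σ x

/-- The action on `ℂ_l` as a homomorphism of `ℚ_l`-algebras. -/
def actCAlg (σ : Gal(PadicAlgCl l/ℚ_[l])) : ℂ_[l] →ₐ[ℚ_[l]] ℂ_[l] :=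
  AlgHom.mk (actC σ) (actC_algebraMap σ)

lemma actC_mem (σ : Gal(PadicAlgCl l/ℚ_[l])) :
    ∀ x ∈ PadicComplexInt l, actC σ x ∈ PadicComplexInt l :=
  fun x hx => (Run7.h547.actO σ ⟨x, hx⟩).2

lemma actC_inv (σ : Gal(PadicAlgCl l/ℚ_[l])) (x : ℂ_[l]) : actC σ (actC σ⁻¹ x) = x :=
  (Run7.h547.actC_mul σ σ⁻¹ x).symm.trans (by rw [mul_inv_cancel, Run7.h547.actC_one])

lemma actC_inv' (σ : Gal(PadicAlgCl l/ℚ_[l])) (x : ℂ_[l]) : actC σ⁻¹ (actC σ x) = x :=
  (Run7.h547.actC_mul σ⁻¹ σ x).symm.trans (by rw [inv_mul_cancel, Run7.h547.actC_one])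

/-- The action on the ring of integers of `ℂ_l`. -/
def actO (σ : Gal(PadicAlgCl l/ℚ_[l])) : 𝓞_ℂ_[l] ≃+* 𝓞_ℂ_[l] :=
  restrictEquiv (PadicComplexInt l) (actC σ) (actC σ⁻¹) (actC_mem σ) (actC_mem σ⁻¹)
    (actC_inv σ) (actC_inv' σ)

/-- The action on `B_dR` as a homomorphism of `ℚ_l`-algebras. -/
def actB (σ : Gal(PadicAlgCl l/ℚ_[l])) :
    BDeRham 𝓞_ℂ_[l] l →ₐ[ℚ_[l]] BDeRham 𝓞_ℂ_[l] l :=
  bdRAlgHom (actO σ)

/-- The `l`-adic cyclotomic character of `ℚ_l`. -/
def chi (σ : Gal(PadicAlgCl l/ℚ_[l])) : ℚ_[l] :=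
  algebraMap ℤ_[l] ℚ_[l]
    (cyclotomicCharacter (PadicAlgCl l) l (σ : PadicAlgCl l ≃+* PadicAlgCl l)).val

variable {F : Type} [Field F] {n : ℕ}

/-- The decomposition group defined by an embedding `ι` of the algebraic closure of `F` in the
algebraic closure of `ℚ_l`: its elements are the pairs `(σ, τ)` such that `τ` is the restriction
of `σ` to the algebraic closure of `F`. It is the absolute Galois group of the completion of `F`
at the place defined by `ι`. -/
abbrev Dec (ι : AlgebraicClosure F →+* PadicAlgCl l) : Type :=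
  {s : Gal(PadicAlgCl l/ℚ_[l]) × Gal(AlgebraicClosure F/F) // ∀ a, ι (s.2 a) = s.1 (ι a)}

/-- The restriction of `ρ` to the decomposition group defined by `ι` is de Rham: the `B_dR`-module
`B_dR ⊗ V` is generated by its fixed elements. -/
def IsDeRham (ρ : Rep F l n)
    (ι : AlgebraicClosure F →+* PadicAlgCl l) : Prop :=
  IsAdmissible (fun s : Dec ι => actB s.1.1) (fun s => linMap (mat ρ s.1.2))

/-- `i` is a Hodge-Tate weight of the restriction of `ρ` to the decomposition group defined by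
`ι`: the twist of `ℂ_l ⊗ V` by the `i`-th power of the cyclotomic character has non-zero fixed
elements. So the cyclotomic character has Hodge-Tate weight `-1`. -/
def IsHodgeTateWeight (ρ : Rep F l n)
    (ι : AlgebraicClosure F →+* PadicAlgCl l) (i : ℤ) : Prop :=
  HasFixed (fun s : Dec ι => actCAlg s.1.1)
    (fun s => chi s.1.1 ^ i • linMap (K := ℚ_[l]) (mat ρ s.1.2))

/-- The first condition: at every place above `l`, `ρ` is de Rham and all its Hodge-Tate weights
are non-negative. -/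
def CondOne (ρ : Rep F l n) : Prop :=
  ∀ ι : AlgebraicClosure F →+* PadicAlgCl l, IsDeRham ρ ι ∧
    ∀ i : ℤ, IsHodgeTateWeight ρ ι i → 0 ≤ i

end H547FM
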