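import Pool.Agent.Run7.h547.FM.SpecL
import Pool.Agent.Run7.h547.FM.Final

/-!
# The main theorem for the definitions of `SpecG.lean` and `SpecL.lean`

The definitions of the files `SpecB.lean`, `SpecG.lean` and `SpecL.lean` agree with those of the
files `Act.lean`, `Zp.lean`, `GDefs.lean` and `LDefs.lean`, which were used in the proof.
-/

set_option autoImplicit false

noncomputable section

open Ideal TensorProduct

namespace H547FM

variable {F : Type} [Field F] {l : ℕ} [Fact l.Prime] {n : ℕ}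

lemma actO_eq (σ : Gal(PadicAlgCl l/ℚ_[l])) : actO σ = Run7.h547.actO σ := by
  ext x; rfl

lemma map_eq (ρ : Rep F l n) (σ : Gal(PadicAlgCl l/ℚ_[l])) (τ : Gal(AlgebraicClosure F/F)) :
    TensorProduct.map (actB σ).toLinearMap (linMap (K := ℚ_[l]) (mat ρ τ)) =
      Run7.h547.bdRTensor ρ σ τ := by
  unfold actB
  rw [actO_eq]
  rfl

lemma isDeRham_old (ρ : Rep F l n) (ι : AlgebraicClosure F →+* PadicAlgCl l)
    (h : IsDeRham ρ ι) : Run7.h547.IsDeRham ρ ι := by
  refine Eq.trans (congrArg _ (Set.ext fun x => ?_)) h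
  constructor
  · intro hx s
    have h1 := hx s.1.1 s.1.2 s.2
    rw [← map_eq] at h1
    exact h1
  · intro hx σ τ hστ
    have h1 := hx ⟨(σ, τ), hστ⟩
    rw [← map_eq]
    exact h1

lemma isIrreducible_one (ρ : Rep F l 1) : IsIrreducible ρ := by
  refine ⟨one_pos, fun W _ => ?_⟩
  by_cases hW : W = ⊥
  · exact Or.inl hW
  · right
    obtain ⟨x, hx, hx0⟩ := (Submodule.ne_bot_iff W).1 hW
    have hx1 : x 0 ≠ 0 := by
      intro h
      apply hx0
      funext i
      rw [Subsingleton.elim i 0, h]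
      rfl
    rw [eq_top_iff]
    intro y _
    have : y = (y 0 / x 0) • x := by
      funext i
      rw [Subsingleton.elim i 0, Pi.smul_apply, smul_eq_mul, div_mul_cancel₀ _ hx1]
    rw [this]
    exact W.smul_mem _ hx

lemma unramifiedAE_of_old (ρ : Rep F l n) (h : Run7.h547.UnramifiedAE ρ) : UnramifiedAE ρ := by
  refine Set.Finite.subset h ?_
  rintro v ⟨P, hP, hv, τ, hτ, hne⟩
  refine ⟨P, hP, hv, fun hun => hne ?_⟩
  have h1 : ρ τ = 1 := hun τ hτ
  unfold mat
  rw [h1]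
  rfl

/-- a homomorphism on the inertia group defined by a function -/
def tameHom (P : Ideal (NumberField.RingOfIntegers (AlgebraicClosure F)))
    (t : Gal(AlgebraicClosure F/F) → ℚ_[l]) (ht : IsTame P t) :
    P.inertia (Gal(AlgebraicClosure F/F)) →* Multiplicative ℚ_[l] :=
  MonoidHom.mk' (fun i => Multiplicative.ofAdd (t i)) fun i j =>
    congrArg Multiplicative.ofAdd (ht.1 i j i.2 j.2)

lemma continuous_tameHom (P : Ideal (NumberField.RingOfIntegers (AlgebraicClosure F)))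
    (t : Gal(AlgebraicClosure F/F) → ℚ_[l]) (ht : IsTame P t) : Continuous (tameHom P t ht) :=
  continuousOn_iff_continuous_domRestrict.1 ht.2.1

lemma tameHom_ne_one (P : Ideal (NumberField.RingOfIntegers (AlgebraicClosure F)))
    (t : Gal(AlgebraicClosure F/F) → ℚ_[l]) (ht : IsTame P t) : tameHom P t ht ≠ 1 := by
  obtain ⟨τ, hτ, hne⟩ := ht.2.2
  intro h
  exact hne (congrArg Multiplicative.toAdd (DFunLike.congr_fun h ⟨τ, hτ⟩))

open scoped Classical in
/-- the extension by `1` of a homomorphism on the Weil group -/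
def extOne (P : Ideal (NumberField.RingOfIntegers (AlgebraicClosure F)))
    (r : Run7.h547.weil P →* GL (Fin n) (PadicAlgCl l)) (τ : Gal(AlgebraicClosure F/F)) :
    GL (Fin n) (PadicAlgCl l) :=
  if h : τ ∈ Run7.h547.weil P then r ⟨τ, h⟩ else 1

lemma extOne_mem (P : Ideal (NumberField.RingOfIntegers (AlgebraicClosure F)))
    (r : Run7.h547.weil P →* GL (Fin n) (PadicAlgCl l)) (τ : Gal(AlgebraicClosure F/F))
    (h : τ ∈ Run7.h547.weil P) : extOne P r τ = r ⟨τ, h⟩ := by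
  unfold extOne
  rw [dif_pos h]

lemma condTwo_of_old (ρ : Rep F l n) (h : Run7.h547.CondTwo ρ) : CondTwo ρ := by
  obtain ⟨w, hw⟩ := h
  refine ⟨w, fun P hP hl Φ hΦ t ht => ?_⟩
  obtain ⟨r, N, hWD, hI, M, hM, hM'⟩ := hw P hP hl Φ hΦ (tameHom P t ht)
    (continuous_tameHom P t ht) (tameHom_ne_one P t ht)
  refine ⟨extOne P r, N, ⟨?_, ?_, hWD.nilpotent, ?_⟩, ?_, M, ?_, ?_⟩
  · intro σ hσ τ hτ
    rw [extOne_mem P r σ hσ, extOne_mem P r τ hτ, extOne_mem P r (σ * τ) (mul_mem hσ hτ),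
      ← map_mul]
    rfl
  · obtain ⟨U, hU, hU'⟩ := hWD.smooth
    refine ⟨U, hU, fun τ hτU hτ => ?_⟩
    rw [extOne_mem P r τ (Run7.h547.inertia_mem hτ)]
    exact hU' τ hτ hτU
  · intro m τ hτ
    have h1 := hWD.eq m ⟨τ, hτ⟩
    have h2 : Φ ^ m * τ ∈ Run7.h547.weil P :=
      mul_mem (zpow_mem (Run7.h547.frob_mem hΦ) m) (Run7.h547.inertia_mem hτ)
    rw [extOne_mem P r _ h2]
    exact h1
  · intro τ hτ α hα
    rw [extOne_mem P r τ (Run7.h547.frob_mem hτ)] at hα
    exact hI τ hτ α hα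
  · exact ⟨hM.mono, hM.bot, hM.top, hM.shift, hM.inj, hM.surj⟩
  · intro τ hτ j x hx hx' α hα
    rw [extOne_mem P r τ (Run7.h547.frob_mem hτ)] at hα
    exact hM' τ hτ j x α hx hx' hα

/-- The second condition does not imply the first one. -/
theorem main (l : ℕ) [Fact l.Prime] (F : Type) [Field F] [NumberField F] :
    ∃ ρ : Rep F l 1, IsContinuous ρ ∧ IsIrreducible ρ ∧ UnramifiedAE ρ ∧ CondTwo ρ ∧
      ¬ CondOne ρ := by
  obtain ⟨h, hc, ⟨M, hM, hh⟩, N, hN⟩ := Run7.h658.FM.exists_sqrt (p := l)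
  obtain ⟨ρ, h1, h2, h3, h4, hρ⟩ := Run7.h658.FM.exists_rho F h hc M hM hh
  refine ⟨ρ, h1, isIrreducible_one ρ, unramifiedAE_of_old ρ h3, condTwo_of_old ρ h4,
    fun hone => ?_⟩
  obtain ⟨ι⟩ := Run7.h547.exists_embedding F l
  exact Run7.h547.not_deRham h N hN ρ hρ ι (isDeRham_old ρ ι (hone ι).1)

end H547FM
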